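import Mathlib

/-!
A Siegel lemma in terms of the maximal minors.
-/

open Matrix

namespace Pool.Agent.P.MP_92cab9_nt

lemma card_quot_rows {r : ℕ} (M : Matrix (Fin r) (Fin r) ℤ) (hM : M.det ≠ 0) :
    Nat.card ((Fin r → ℤ) ⧸ Submodule.span ℤ (Set.range M.row)) = M.det.natAbs := by
  have hli : LinearIndependent ℤ M.row := Matrix.linearIndependent_rows_of_det_ne_zero hM
  rw [← Submodule.natAbs_det_basis_change (Pi.basisFun ℤ (Fin r)) _ (Module.Basis.span hli)]
  congr 1
  rw [Module.Basis.det_apply, ← Matrix.det_transpose]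
  congr 1
  ext i j
  simp [Module.Basis.toMatrix_apply]

/-- Siegel lemma with a bound on the maximal minors. -/
lemma siegel_minor {S : Type} [Fintype S] {r : ℕ} (A : S → Fin r → ℤ) (N B : ℕ)
    (h0 : ∃ U : Fin r → S, (Matrix.of fun k l => A (U k) l).det ≠ 0)
    (hN : ∀ U : Fin r → S, |(Matrix.of fun k l => A (U k) l).det| ≤ N)
    (hB : N * (2 * (Fintype.card S * B) + 1) ^ r < (B + 1) ^ Fintype.card S) :
    ∃ x : S → ℤ, x ≠ 0 ∧ (∀ s, |x s| ≤ B) ∧ ∑ s, x s • A s = 0 := by
  classical
  obtain ⟨U₀, hU₀⟩ := h0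
  obtain ⟨U, -, hU⟩ := Finset.exists_max_image (Finset.univ : Finset (Fin r → S))
    (fun U => |(Matrix.of fun k l => A (U k) l).det|) ⟨U₀, Finset.mem_univ _⟩
  set M : Matrix (Fin r) (Fin r) ℤ := Matrix.of fun k l => A (U k) l with hMdef
  have hD : 0 < |M.det| := lt_of_lt_of_le (abs_pos.2 hU₀) (hU U₀ (Finset.mem_univ _))
  have hD0 : M.det ≠ 0 := abs_pos.1 hD
  have hcr : ∀ s k, |cramer Mᵀ (A s) k| ≤ |M.det| := by
    intro s k
    rw [cramer_transpose_apply]
    have : M.updateRow k (A s) = Matrix.of fun k' l => A (Function.update U k s k') l := by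
      ext k' l
      by_cases h : k' = k
      · subst h; simp
      · simp [h, hMdef]
    rw [this]
    exact hU _ (Finset.mem_univ _)
  set L := Fintype.card S with hL
  let y : (S → Fin (B + 1)) → Fin r → ℤ := fun x => ∑ s, ((x s : ℕ) : ℤ) • A s
  have hy : ∀ x k, |cramer Mᵀ (y x) k| ≤ (L * B : ℕ) * |M.det| := by
    intro x k
    simp only [y, map_sum, map_smul, Finset.sum_apply, Pi.smul_apply, smul_eq_mul]
    refine (Finset.abs_sum_le_sum_abs _ _).trans ?_
    calc ∑ s, |((x s : ℕ) : ℤ) * cramer Mᵀ (A s) k| ≤ ∑ _s : S, (B : ℤ) * |M.det| := by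
          refine Finset.sum_le_sum fun s _ => ?_
          rw [abs_mul]
          refine mul_le_mul ?_ (hcr s k) (abs_nonneg _) (by positivity)
          rw [abs_of_nonneg (by positivity)]
          exact_mod_cast Nat.lt_succ_iff.1 (x s).2
      _ = _ := by simp [hL, mul_assoc]
  have hmem : ∀ x k, cramer Mᵀ (y x) k / |M.det| ∈
      Finset.Icc (-((L * B : ℕ) : ℤ)) ((L * B : ℕ) : ℤ) := by
    intro x k
    have := abs_le.1 (hy x k)
    rw [Finset.mem_Icc]
    constructor
    · rw [Int.le_ediv_iff_mul_le hD]; linarith [this.1]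
    · exact Int.ediv_le_of_le_mul hD this.2
  let Λ := Submodule.span ℤ (Set.range M.row)
  have hcard : Nat.card ((Fin r → ℤ) ⧸ Λ) = M.det.natAbs := card_quot_rows M hD0
  have hfin : Finite ((Fin r → ℤ) ⧸ Λ) :=
    Nat.finite_of_card_ne_zero (by rw [hcard]; exact Int.natAbs_ne_zero.2 hD0)
  let Φ : (S → Fin (B + 1)) → ((Fin r → ℤ) ⧸ Λ) ×
      (Fin r → Finset.Icc (-((L * B : ℕ) : ℤ)) ((L * B : ℕ) : ℤ)) :=
    fun x => (Λ.mkQ (y x), fun k => ⟨_, hmem x k⟩)
  have hni : ¬ Function.Injective Φ := by
    intro hinj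
    have h1 := Nat.card_le_card_of_injective Φ hinj
    rw [Nat.card_prod, hcard] at h1
    simp only [Nat.card_eq_fintype_card, Fintype.card_pi, Fintype.card_fin, Finset.prod_const,
      Finset.card_univ, Fintype.card_coe, Int.card_Icc] at h1
    have h2 : M.det.natAbs ≤ N := by
      have := hN U
      rw [← hMdef, ← Int.natCast_natAbs] at this
      exact_mod_cast this
    have h3 : (((L * B : ℕ) : ℤ) + 1 - -((L * B : ℕ) : ℤ)).toNat = 2 * (L * B) + 1 := by omega
    rw [h3] at h1
    have h4 := Nat.mul_le_mul_right ((2 * (L * B) + 1) ^ r) h2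
    rw [← hL] at h1
    omega
  obtain ⟨x, x', hxx, hne⟩ := Function.not_injective_iff.1 hni
  have hyy : y x = y x' := by
    have h1 : y x - y x' ∈ Λ := (Submodule.Quotient.eq Λ).1 (congrArg Prod.fst hxx)
    obtain ⟨c, hc⟩ := (Submodule.mem_span_range_iff_exists_fun ℤ).1 h1
    have h2 : ∀ k, cramer Mᵀ (y x) k - cramer Mᵀ (y x') k = c k * M.det := by
      intro k
      rw [← Pi.sub_apply, ← map_sub, ← hc]
      simp only [map_sum, map_smul, Finset.sum_apply, Pi.smul_apply, smul_eq_mul]
      have : ∀ i, cramer Mᵀ (M.row i) = Pi.single i M.det := fun i => cramer_transpose_row_self M i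
      simp [this, Pi.single_apply]
    have h3 : ∀ k, c k = 0 := by
      intro k
      have e : cramer Mᵀ (y x) k / |M.det| = cramer Mᵀ (y x') k / |M.det| :=
        congrArg Subtype.val (congrFun (congrArg Prod.snd hxx) k)
      have a1 := Int.emod_add_mul_ediv (cramer Mᵀ (y x) k) |M.det|
      have a2 := Int.emod_add_mul_ediv (cramer Mᵀ (y x') k) |M.det|
      have b1 := Int.emod_nonneg (cramer Mᵀ (y x) k) hD.ne'
      have b2 := Int.emod_nonneg (cramer Mᵀ (y x') k) hD.ne'
      have c1 := Int.emod_lt_of_pos (cramer Mᵀ (y x) k) hD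
      have c2 := Int.emod_lt_of_pos (cramer Mᵀ (y x') k) hD
      have h4 : |c k * M.det| < |M.det| := by
        rw [← h2 k, abs_lt]
        rw [e] at a1
        constructor <;> linarith
      by_contra hck
      rw [abs_mul] at h4
      have := Int.one_le_abs hck
      nlinarith
    rw [← sub_eq_zero, ← hc]
    simp [h3]
  refine ⟨fun s => ((x s : ℕ) : ℤ) - ((x' s : ℕ) : ℤ), ?_, ?_, ?_⟩
  · intro h
    apply hne
    funext s
    have := congrFun h s
    simp only [Pi.zero_apply, sub_eq_zero, Nat.cast_inj] at this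
    exact Fin.ext this
  · intro s
    have h1 := (x s).2
    have h2 := (x' s).2
    rw [abs_le]
    beta_reduce
    constructor <;> omega
  · simp only [sub_smul, Finset.sum_sub_distrib]
    exact sub_eq_zero.2 hyy

/-- From a spanning family of rows one can choose a nonzero maximal minor. -/
lemma exists_minor_ne_zero {K : Type} [Field K] {S : Type} {r : ℕ} (A : S → Fin r → K)
    (h : Submodule.span K (Set.range A) = ⊤) :
    ∃ U : Fin r → S, (Matrix.of fun k l => A (U k) l).det ≠ 0 := by
  obtain ⟨f, hf, -, hli⟩ := Submodule.exists_fun_fin_finrank_span_eq K (Set.range A)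
  have hr : Module.finrank K (Submodule.span K (Set.range A)) = r := by
    rw [h]; simp
  choose U hU using hf
  refine ⟨fun k => U (Fin.cast hr.symm k), ?_⟩
  have h1 : LinearIndependent K (Matrix.of fun k l => A (U (Fin.cast hr.symm k)) l).row := by
    have := hli.comp (Fin.cast hr.symm) (Fin.cast_injective _)
    have e : (Matrix.of fun k l => A (U (Fin.cast hr.symm k)) l).row = f ∘ Fin.cast hr.symm := by
      funext k
      simp only [Function.comp, ← hU]
      rfl
    rw [e]
    exact this
  rw [Matrix.linearIndependent_rows_iff_isUnit, Matrix.isUnit_iff_isUnit_det] at h1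
  exact h1.ne_zero

/-- Integral coordinates for a finite family in a rational vector space. -/
lemma exists_int_coords {V : Type} [AddCommGroup V] [Module ℚ V] {S : Type} [Fintype S]
    (w : S → V) :
    ∃ (r : ℕ) (γ : Fin r → V) (A : S → Fin r → ℤ),
      r = Module.finrank ℚ (Submodule.span ℚ (Set.range w)) ∧ LinearIndependent ℚ γ ∧
      (∀ k, γ k ∈ Submodule.span ℤ (Set.range w)) ∧ (∀ s, w s = ∑ k, A s k • γ k) ∧
      ∃ U : Fin r → S, (Matrix.of fun k l => A (U k) l).det ≠ 0 := by
  classical
  let Γ := Submodule.span ℤ (Set.range w)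
  have hfin : Module.Finite ℤ Γ := Module.Finite.span_of_finite ℤ (Set.finite_range w)
  have htf : IsAddTorsionFree V := IsAddTorsionFree.of_module_rat V
  have hfree : Module.Free ℤ Γ := inferInstance
  let b := Module.finBasis ℤ Γ
  let γ : Fin (Module.finrank ℤ Γ) → V := fun k => (b k : V)
  have hw : ∀ s, w s ∈ Γ := fun s => Submodule.subset_span ⟨s, rfl⟩
  let A : S → Fin (Module.finrank ℤ Γ) → ℤ := fun s k => b.repr ⟨w s, hw s⟩ k
  have hliZ : LinearIndependent ℤ γ := b.linearIndependent.map' Γ.subtype Γ.ker_subtype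
  have hli : LinearIndependent ℚ γ := (LinearIndependent.iff_fractionRing ℤ ℚ).1 hliZ
  have hA : ∀ s, w s = ∑ k, A s k • γ k := by
    intro s
    have := congrArg Γ.subtype (b.sum_repr ⟨w s, hw s⟩)
    rw [map_sum] at this
    simp only [map_smul] at this
    exact this.symm
  have hspan : Submodule.span ℚ (Set.range γ) = Submodule.span ℚ (Set.range w) := by
    apply le_antisymm
    · rw [Submodule.span_le]
      rintro _ ⟨k, rfl⟩
      exact Submodule.span_le_restrictScalars ℤ ℚ _ (b k).2
    · rw [Submodule.span_le]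
      rintro _ ⟨s, rfl⟩
      rw [hA s]
      exact Submodule.sum_mem _ fun k _ =>
        zsmul_mem (Submodule.subset_span (Set.mem_range_self k)) _
  refine ⟨_, γ, A, ?_, hli, fun k => (b k).2, hA, ?_⟩
  · rw [← hspan, finrank_span_eq_card hli]
    simp
  · have htop : Submodule.span ℚ (Set.range fun s k => (A s k : ℚ)) = ⊤ := by
      rw [eq_top_iff, ← (Pi.basisFun ℚ _).span_eq, Submodule.span_le]
      rintro _ ⟨k, rfl⟩
      obtain ⟨c, hc⟩ := (Submodule.mem_span_range_iff_exists_fun ℤ).1 (b k).2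
      refine (Submodule.mem_span_range_iff_exists_fun ℚ).2 ⟨fun s => (c s : ℚ), ?_⟩
      have h1 : ∑ s, c s • (⟨w s, hw s⟩ : Γ) = b k := by
        apply Subtype.ext
        simpa using hc
      funext l
      have h2 := congrArg (fun z => b.repr z l) h1
      simp only [map_sum, map_smul, Finsupp.coe_finsetSum, Finset.sum_apply, Finsupp.coe_smul,
        Pi.smul_apply, smul_eq_mul, Module.Basis.repr_self] at h2
      have h3 := congrArg (Int.cast (R := ℚ)) h2
      simp only [Finset.sum_apply, Pi.smul_apply, smul_eq_mul, Pi.basisFun_apply]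
      push_cast at h3
      rw [h3]
      simp [Finsupp.single_apply, Pi.single_apply, eq_comm]
    obtain ⟨U, hU⟩ := exists_minor_ne_zero _ htop
    refine ⟨U, fun h => hU ?_⟩
    have := congrArg (Int.cast (R := ℚ)) h
    rw [Int.cast_det, Int.cast_zero] at this
    exact this

end Pool.Agent.P.MP_92cab9_nt
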