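import Mathlib

/-!
Product-formula inequalities for algebraic numbers, from valuation subrings of `ℂ`.
-/

open Polynomial IntermediateField

namespace Pool.Agent.P.MP_92cab9_nt

lemma coeff_mem_of_mul (V : ValuationSubring ℂ) (ρ : ℂ) (q : ℂ[X])
    (h : ∀ k, ((X - C ρ) * q).coeff k ∈ V) : ∀ k, q.coeff k ∈ V ∧ ρ * q.coeff k ∈ V := by
  have h0 : ρ * q.coeff 0 ∈ V := by
    have := V.neg_mem _ (h 0)
    simpa using this
  have hs : ∀ k, q.coeff k - ρ * q.coeff (k + 1) ∈ V := by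
    intro k
    have := h (k + 1)
    rwa [sub_mul, coeff_sub, coeff_X_mul, coeff_C_mul] at this
  rcases V.mem_or_inv_mem ρ with hρ | hρ
  · have key : ∀ j k, q.natDegree < k + j → q.coeff k ∈ V := by
      intro j
      induction j with
      | zero =>
        intro k hk
        rw [coeff_eq_zero_of_natDegree_lt (by simpa using hk)]
        exact V.zero_mem
      | succ j ih =>
        intro k hk
        have h1 := V.add_mem _ _ (hs k) (V.mul_mem _ _ hρ (ih (k + 1) (by omega)))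
        simpa using h1
    intro k
    have := key (q.natDegree + 1) k (by omega)
    exact ⟨this, V.mul_mem _ _ hρ this⟩
  · by_cases hz : ρ = 0
    · subst hz
      intro k
      exact ⟨by simpa using hs k, by simp⟩
    have key : ∀ k, ρ * q.coeff k ∈ V := by
      intro k
      induction k with
      | zero => exact h0
      | succ k ih =>
        have h1 := V.mul_mem _ _ hρ ih
        rw [← mul_assoc, inv_mul_cancel₀ hz, one_mul] at h1
        have h2 := V.add_mem _ _ h1 (V.neg_mem _ (hs k))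
        simpa using h2
    intro k
    have h1 := V.mul_mem _ _ hρ (key k)
    rw [← mul_assoc, inv_mul_cancel₀ hz, one_mul] at h1
    exact ⟨h1, key k⟩

lemma gauss_val (V : ValuationSubring ℂ) (s : Multiset ℂ) (a : ℂ)
    (h : ∀ k, (C a * (s.map fun ρ => X - C ρ).prod).coeff k ∈ V) :
    V.valuation a * (s.map fun ρ => max 1 (V.valuation ρ)).prod ≤ 1 := by
  induction s using Multiset.induction_on generalizing a with
  | empty =>
    have := h 0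
    simpa [V.valuation_le_one_iff] using this
  | cons ρ s ih =>
    simp only [Multiset.map_cons, Multiset.prod_cons] at h ⊢
    have h' := coeff_mem_of_mul V ρ (C a * (s.map fun ρ => X - C ρ).prod) (by
      intro k
      have := h k
      rwa [mul_left_comm] at this)
    rcases le_total (V.valuation ρ) 1 with hρ | hρ
    · rw [max_eq_left hρ, one_mul]
      exact ih a fun k => (h' k).1
    · rw [max_eq_right hρ, ← mul_assoc, mul_comm (V.valuation a), ← map_mul]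
      refine ih (ρ * a) fun k => ?_
      have := (h' k).2
      rwa [← coeff_C_mul, ← mul_assoc, ← C_mul] at this

variable {F : Type} [Field F] [NumberField F]

lemma prod_emb_eq {M : Type*} [CommMonoid M] (g : ℂ → M) (θ : F) :
    ∏ τ : F →ₐ[ℚ] ℂ, g (τ θ) =
      (((minpoly ℚ θ).aroots ℂ).map g).prod ^ Module.finrank ℚ⟮θ⟯ F := by
  classical
  have hx : IsIntegral ℚ θ := Algebra.IsIntegral.isIntegral θ
  let pb := adjoin.powerBasis hx
  have e1 : ∏ τ : F →ₐ[ℚ] ℂ, g (τ θ) =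
      (∏ σ : ℚ⟮θ⟯ →ₐ[ℚ] ℂ, g (σ pb.gen)) ^ Module.finrank ℚ⟮θ⟯ F := by
    rw [Fintype.prod_equiv (algHomEquivSigma (B := ℚ⟮θ⟯)) (fun σ : F →ₐ[ℚ] ℂ => _)
      fun σ => g (σ.1 pb.gen), ← Finset.univ_sigma_univ, Finset.prod_sigma, ← Finset.prod_pow]
    · refine Finset.prod_congr rfl fun σ _ => ?_
      let : Algebra ℚ⟮θ⟯ ℂ := σ.toRingHom.toAlgebra
      simp_rw [Finset.prod_const]
      congr
      exact AlgHom.card ℚ⟮θ⟯ F ℂ
    · intro σ
      rfl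
  have hm : minpoly ℚ pb.gen = minpoly ℚ θ := minpoly_gen ℚ θ
  rw [e1, ← hm]
  congr 1
  refine (Fintype.prod_equiv pb.liftEquiv' (fun σ => g (σ pb.gen)) (fun x => g x) ?_).trans ?_
  · intro σ; simp only [PowerBasis.liftEquiv'_apply_coe]
  · have hnd : ((minpoly ℚ pb.gen).aroots ℂ).Nodup :=
      nodup_roots (Polynomial.Separable.map (f := algebraMap ℚ ℂ)
        (Algebra.IsSeparable.isSeparable ℚ pb.gen))
    rw [Finset.prod_mem_multiset _ _ g (fun _ => rfl), Finset.prod_eq_multiset_prod,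
      Multiset.toFinset_val]
    congr 2
    exact (@Multiset.dedup_eq_self _ (_) _).mpr hnd

/-- The absolute multiplicative height of `θ` is at most `H`, in the form used below. -/
def HB (θ : F) (H : ℝ) : Prop :=
  ∃ a : ℤ, a ≠ 0 ∧
    (∀ V : ValuationSubring ℂ,
      V.valuation (a : ℂ) * ∏ τ : F →ₐ[ℚ] ℂ, max 1 (V.valuation (τ θ)) ≤ 1) ∧
    |(a : ℝ)| * ∏ τ : F →ₐ[ℚ] ℂ, max 1 ‖τ θ‖ ≤ H ^ Module.finrank ℚ F

/-- An integer multiple of a rational polynomial with Mahler measure at most `H ^ degree`. -/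
def MB (p : ℚ[X]) (H : ℝ) : Prop :=
  ∃ (f : ℤ[X]) (b : ℤ), b ≠ 0 ∧ f.map (Int.castRingHom ℚ) = C (b : ℚ) * p ∧
    |(b : ℝ)| * ((p.aroots ℂ).map fun z => max 1 ‖z‖).prod ≤ H ^ p.natDegree

lemma HB_of_MB (θ : F) {H : ℝ} (h : MB (minpoly ℚ θ) H) : HB θ H := by
  obtain ⟨f, b, hb, hf, hM⟩ := h
  have hx : IsIntegral ℚ θ := Algebra.IsIntegral.isIntegral θ
  refine ⟨b ^ Module.finrank ℚ⟮θ⟯ F, pow_ne_zero _ hb, fun V => ?_, ?_⟩
  · rw [prod_emb_eq (fun z => max 1 (V.valuation z)), Int.cast_pow, map_pow, ← mul_pow]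
    refine pow_le_one₀ zero_le ?_
    apply gauss_val
    intro k
    have h1 : ((minpoly ℚ θ).map (algebraMap ℚ ℂ)) =
        (((minpoly ℚ θ).aroots ℂ).map fun ρ => X - C ρ).prod :=
      (IsAlgClosed.splits _).eq_prod_roots_of_monic ((minpoly.monic hx).map _)
    rw [← h1]
    have h2 : C (b : ℂ) * (minpoly ℚ θ).map (algebraMap ℚ ℂ) = f.map (Int.castRingHom ℂ) := by
      have := congrArg (Polynomial.map (algebraMap ℚ ℂ)) hf
      rw [Polynomial.map_map, Polynomial.map_mul, map_C] at this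
      simp only [map_intCast] at this
      rw [map_intCast, ← this]
      congr 1
    rw [h2, coeff_map]
    exact intCast_mem V _
  · rw [prod_emb_eq (fun z => max 1 ‖z‖), Int.cast_pow, abs_pow, ← mul_pow,
      ← Module.finrank_mul_finrank ℚ ℚ⟮θ⟯ F, pow_mul, adjoin.finrank hx]
    refine pow_le_pow_left₀ (mul_nonneg (abs_nonneg _) ?_) hM _
    exact Multiset.prod_nonneg fun z hz => by
      obtain ⟨w, -, rfl⟩ := Multiset.mem_map.1 hz
      positivity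

lemma exists_int_of_forall_mem {q : ℚ} (h : ∀ V : ValuationSubring ℂ, (q : ℂ) ∈ V) :
    ∃ k : ℤ, (k : ℚ) = q := by
  have h1 : (q : ℂ) ∈ (integralClosure (Subring.closure (∅ : Set ℂ)) ℂ).toSubring := by
    rw [← iInf_valuationSubring_superset, Subring.mem_iInf]
    exact fun V => h V.1
  have h2 : IsIntegral (Subring.closure (∅ : Set ℂ)) (q : ℂ) := h1
  have hint : Algebra.IsIntegral ℤ (Subring.closure (∅ : Set ℂ)) := by
    constructor
    rintro ⟨x, hx⟩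
    rw [Subring.closure_empty, Subring.mem_bot] at hx
    obtain ⟨n, rfl⟩ := hx
    have : (⟨(n : ℂ), by rw [Subring.closure_empty, Subring.mem_bot]; exact ⟨n, rfl⟩⟩ :
      Subring.closure (∅ : Set ℂ)) = algebraMap ℤ _ n := by ext; simp
    rw [this]
    exact isIntegral_algebraMap
  have h3 : IsIntegral ℤ (q : ℂ) := isIntegral_trans _ h2
  have h4 : IsIntegral ℤ q := by
    have : (q : ℂ) = algebraMap ℚ ℂ q := rfl
    rw [this] at h3
    exact (isIntegral_algebraMap_iff (algebraMap ℚ ℂ).injective).1 h3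
  obtain ⟨k, hk⟩ := IsIntegrallyClosed.isIntegral_iff.1 h4
  exact ⟨k, by simpa using hk⟩

/-- `z` is bounded at all finite places like a polynomial of degree `δ` in each `θ j`. -/
def Small {κ : Type} [Fintype κ] (θ : κ → F) (δ : ℕ) (z : F) : Prop :=
  ∀ (V : ValuationSubring ℂ) (τ : F →ₐ[ℚ] ℂ),
    V.valuation (τ z) ≤ ∏ j, max 1 (V.valuation (τ (θ j))) ^ δ

lemma one_le_prod {κ : Type} [Fintype κ] {θ : κ → F} {δ : ℕ} {z : F} (hz : z ≠ 0)
    (hs : Small θ δ z) (a : κ → ℤ) (ha : ∀ j, a j ≠ 0)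
    (hv : ∀ j (V : ValuationSubring ℂ),
      V.valuation (a j : ℂ) * ∏ τ : F →ₐ[ℚ] ℂ, max 1 (V.valuation (τ (θ j))) ≤ 1) :
    1 ≤ (∏ j, |(a j : ℝ)| ^ δ) * ∏ τ : F →ₐ[ℚ] ℂ, ‖τ z‖ := by
  set q : ℚ := (∏ j, (a j : ℚ) ^ δ) * Algebra.norm ℚ z with hq
  have hqc : (q : ℂ) = (∏ j, (a j : ℂ) ^ δ) * ∏ τ : F →ₐ[ℚ] ℂ, τ z := by
    rw [← Algebra.norm_eq_prod_embeddings ℚ ℂ z, hq]
    simp
  have hq0 : q ≠ 0 := mul_ne_zero
    (Finset.prod_ne_zero_iff.2 fun j _ => pow_ne_zero _ (by exact_mod_cast ha j))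
    (Algebra.norm_ne_zero_iff.2 hz)
  obtain ⟨k, hk⟩ := exists_int_of_forall_mem (q := q) (by
    intro V
    rw [← V.valuation_le_one_iff, hqc, map_mul, map_prod, map_prod]
    calc (∏ j, V.valuation ((a j : ℂ) ^ δ)) * ∏ τ : F →ₐ[ℚ] ℂ, V.valuation (τ z)
        ≤ (∏ j, V.valuation ((a j : ℂ) ^ δ)) *
          ∏ τ : F →ₐ[ℚ] ℂ, ∏ j, max 1 (V.valuation (τ (θ j))) ^ δ := by
          exact mul_le_mul_right (Finset.prod_le_prod' fun τ _ => hs V τ) _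
      _ = ∏ j, (V.valuation (a j : ℂ) *
          ∏ τ : F →ₐ[ℚ] ℂ, max 1 (V.valuation (τ (θ j)))) ^ δ := by
          rw [Finset.prod_comm, ← Finset.prod_mul_distrib]
          refine Finset.prod_congr rfl fun j _ => ?_
          rw [mul_pow, map_pow, Finset.prod_pow]
      _ ≤ 1 := Finset.prod_le_one' fun j _ => pow_le_one₀ zero_le (hv j V))
  have hk0 : k ≠ 0 := by
    rintro rfl
    exact hq0 (by simpa using hk.symm)
  have h1 : (1 : ℝ) ≤ ‖(q : ℂ)‖ := by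
    rw [← hk]
    simp only [Rat.cast_intCast, Complex.norm_intCast]
    exact_mod_cast Int.one_le_abs hk0
  rw [hqc, norm_mul, norm_prod, norm_prod] at h1
  simpa using h1

lemma prod_bound {κ : Type} [Fintype κ] {θ : κ → F} {δ : ℕ} {H : ℝ} (a : κ → ℤ)
    (hv : ∀ j, |(a j : ℝ)| * ∏ τ : F →ₐ[ℚ] ℂ, max 1 ‖τ (θ j)‖ ≤ H ^ Module.finrank ℚ F) :
    (∏ j, |(a j : ℝ)| ^ δ) * ∏ τ : F →ₐ[ℚ] ℂ, ∏ j, max 1 ‖τ (θ j)‖ ^ δ ≤
      (H ^ (δ * Fintype.card κ)) ^ Module.finrank ℚ F := by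
  calc (∏ j, |(a j : ℝ)| ^ δ) * ∏ τ : F →ₐ[ℚ] ℂ, ∏ j, max 1 ‖τ (θ j)‖ ^ δ
      = ∏ j, (|(a j : ℝ)| * ∏ τ : F →ₐ[ℚ] ℂ, max 1 ‖τ (θ j)‖) ^ δ := by
        rw [Finset.prod_comm, ← Finset.prod_mul_distrib]
        refine Finset.prod_congr rfl fun j _ => ?_
        rw [mul_pow, Finset.prod_pow]
    _ ≤ ∏ _j : κ, (H ^ Module.finrank ℚ F) ^ δ := by
        refine Finset.prod_le_prod (fun j _ => by positivity) fun j _ => ?_
        exact pow_le_pow_left₀ (by positivity) (hv j) _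
    _ = _ := by
        rw [Finset.prod_const, Finset.card_univ, ← pow_mul, ← pow_mul, ← pow_mul]
        congr 1
        ring

/-- Bound for an integer factor. -/
lemma factor_le {κ : Type} [Fintype κ] {θ : κ → F} {δ : ℕ} {H : ℝ} (hH : 0 ≤ H)
    (hθ : ∀ j, HB (θ j) H) {z : F} (hz : z ≠ 0) (hs : Small θ δ z) {N C : ℝ} (hN : 0 ≤ N)
    (hC : 0 ≤ C) (h : ∀ τ : F →ₐ[ℚ] ℂ, N * ‖τ z‖ ≤ C * ∏ j, max 1 ‖τ (θ j)‖ ^ δ) :
    N ≤ C * H ^ (δ * Fintype.card κ) := by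
  choose a ha hv hw using hθ
  have h1 := one_le_prod hz hs a ha hv
  have h2 := prod_bound (δ := δ) a hw
  have hcard : Fintype.card (F →ₐ[ℚ] ℂ) = Module.finrank ℚ F := AlgHom.card ℚ F ℂ
  have h3 : N ^ Module.finrank ℚ F * ∏ τ : F →ₐ[ℚ] ℂ, ‖τ z‖ ≤
      C ^ Module.finrank ℚ F * ∏ τ : F →ₐ[ℚ] ℂ, ∏ j, max 1 ‖τ (θ j)‖ ^ δ := by
    have := Finset.prod_le_prod (s := Finset.univ) (fun τ _ => by positivity) fun τ _ => h τ
    rwa [Finset.prod_mul_distrib, Finset.prod_mul_distrib, Finset.prod_const, Finset.prod_const,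
      Finset.card_univ, hcard] at this
  have hpos : 0 < Module.finrank ℚ F := Module.finrank_pos
  refine le_of_pow_le_pow_left₀ hpos.ne' (by positivity) ?_
  have hA : 0 ≤ ∏ j, |(a j : ℝ)| ^ δ := by positivity
  calc N ^ Module.finrank ℚ F
      ≤ N ^ Module.finrank ℚ F * ((∏ j, |(a j : ℝ)| ^ δ) * ∏ τ : F →ₐ[ℚ] ℂ, ‖τ z‖) :=
        le_mul_of_one_le_right (by positivity) h1
    _ = (∏ j, |(a j : ℝ)| ^ δ) * (N ^ Module.finrank ℚ F * ∏ τ : F →ₐ[ℚ] ℂ, ‖τ z‖) := by ring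
    _ ≤ (∏ j, |(a j : ℝ)| ^ δ) *
        (C ^ Module.finrank ℚ F * ∏ τ : F →ₐ[ℚ] ℂ, ∏ j, max 1 ‖τ (θ j)‖ ^ δ) := by gcongr
    _ = C ^ Module.finrank ℚ F *
        ((∏ j, |(a j : ℝ)| ^ δ) * ∏ τ : F →ₐ[ℚ] ℂ, ∏ j, max 1 ‖τ (θ j)‖ ^ δ) := by ring
    _ ≤ C ^ Module.finrank ℚ F * (H ^ (δ * Fintype.card κ)) ^ Module.finrank ℚ F := by gcongr
    _ = _ := by rw [mul_pow]

/-- Liouville inequality. -/
lemma liouville {κ : Type} [Fintype κ] {θ : κ → F} {δ : ℕ} {H : ℝ}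
    (hθ : ∀ j, HB (θ j) H) {z : F} (hz : z ≠ 0) (hs : Small θ δ z) {C : ℝ} (hC : 1 ≤ C)
    (h : ∀ τ : F →ₐ[ℚ] ℂ, ‖τ z‖ ≤ C * ∏ j, max 1 ‖τ (θ j)‖ ^ δ) (τ₀ : F →ₐ[ℚ] ℂ) :
    1 ≤ ‖τ₀ z‖ * (C * H ^ (δ * Fintype.card κ)) ^ Module.finrank ℚ F := by
  classical
  choose a ha hv hw using hθ
  have h1 := one_le_prod hz hs a ha hv
  have h2 := prod_bound (δ := δ) a hw
  have hcard : Fintype.card (F →ₐ[ℚ] ℂ) = Module.finrank ℚ F := AlgHom.card ℚ F ℂ
  have hone : ∀ τ : F →ₐ[ℚ] ℂ, 1 ≤ C * ∏ j, max 1 ‖τ (θ j)‖ ^ δ := fun τ =>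
    one_le_mul_of_one_le_of_one_le hC
      (Finset.one_le_prod fun j _ => one_le_pow₀ (le_max_left _ _))
  have h3 : ∏ τ : F →ₐ[ℚ] ℂ, ‖τ z‖ ≤
      ‖τ₀ z‖ * (C ^ Module.finrank ℚ F * ∏ τ : F →ₐ[ℚ] ℂ, ∏ j, max 1 ‖τ (θ j)‖ ^ δ) := by
    rw [← hcard, ← Finset.card_univ, ← Finset.prod_const, ← Finset.prod_mul_distrib,
      ← Finset.mul_prod_erase _ _ (Finset.mem_univ τ₀),
      ← Finset.mul_prod_erase _ _ (Finset.mem_univ τ₀)]
    refine mul_le_mul_of_nonneg_left ?_ (norm_nonneg _)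
    refine le_trans (Finset.prod_le_prod (fun τ _ => norm_nonneg _) fun τ _ => h τ) ?_
    exact le_mul_of_one_le_left
      (Finset.prod_nonneg fun τ _ => zero_le_one.trans (hone τ)) (hone τ₀)
  have hA : 0 ≤ ∏ j, |(a j : ℝ)| ^ δ := by positivity
  have hC0 : 0 ≤ C := zero_le_one.trans hC
  calc (1 : ℝ) ≤ (∏ j, |(a j : ℝ)| ^ δ) * ∏ τ : F →ₐ[ℚ] ℂ, ‖τ z‖ := h1
    _ ≤ (∏ j, |(a j : ℝ)| ^ δ) * (‖τ₀ z‖ *
        (C ^ Module.finrank ℚ F * ∏ τ : F →ₐ[ℚ] ℂ, ∏ j, max 1 ‖τ (θ j)‖ ^ δ)) := by gcongr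
    _ = ‖τ₀ z‖ * (C ^ Module.finrank ℚ F *
        ((∏ j, |(a j : ℝ)| ^ δ) * ∏ τ : F →ₐ[ℚ] ℂ, ∏ j, max 1 ‖τ (θ j)‖ ^ δ)) := by ring
    _ ≤ ‖τ₀ z‖ * (C ^ Module.finrank ℚ F *
        (H ^ (δ * Fintype.card κ)) ^ Module.finrank ℚ F) := by gcongr
    _ = _ := by rw [mul_pow]

end Pool.Agent.P.MP_92cab9_nt
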