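import Mathlib
import Pool.Agent.P.MP_92cab9_nt.Val
import Pool.Agent.P.MP_92cab9_nt.Siegel

/-!
A Siegel lemma for monomials in algebraic numbers, in terms of the rank of the family.
-/

open Polynomial IntermediateField

namespace Pool.Agent.P.MP_92cab9_nt

variable {K : Type} [Field K] [NumberField K]

lemma exists_emb_det {r : ℕ} (γ : Fin r → K) (hγ : LinearIndependent ℚ γ) :
    ∃ σ : Fin r → (K →ₐ[ℚ] ℂ), (Matrix.of fun l k => σ l (γ k)).det ≠ 0 := by
  apply exists_minor_ne_zero (fun (σ : K →ₐ[ℚ] ℂ) k => σ (γ k))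
  have h1 : Submodule.span ℂ (Set.range (AlgHom.toLinearMap : (K →ₐ[ℚ] ℂ) → K →ₗ[ℚ] ℂ)) = ⊤ :=
    (linearIndependent_algHom_toLinearMap ℚ K ℂ).span_eq_top_of_card_eq_finrank'
      (by rw [AlgHom.card, Module.finrank_linearMap_self])
  rw [eq_top_iff]
  rintro y -
  obtain ⟨g, hg⟩ := ((Module.Basis.span hγ).constr ℚ y).exists_extend
  have h2 : ∀ k, g (γ k) = y k := by
    intro k
    have := LinearMap.congr_fun hg (Module.Basis.span hγ k)
    rw [Module.Basis.constr_basis] at this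
    simpa using this
  obtain ⟨c, hc⟩ := (Submodule.mem_span_range_iff_exists_fun ℂ).1 (h1 ▸ Submodule.mem_top (x := g))
  refine (Submodule.mem_span_range_iff_exists_fun ℂ).2 ⟨c, ?_⟩
  funext k
  rw [← h2 k, ← hc]
  simp

/-- The monomial `z ^ u`. -/
def mon {ι R : Type} [Fintype ι] [CommRing R] (u : ι → ℕ) (z : ι → R) : R := ∏ j, z j ^ u j

lemma map_mon {ι R S G : Type} [Fintype ι] [CommRing R] [CommRing S] [FunLike G R S]
    [RingHomClass G R S] (f : G) (u : ι → ℕ) (z : ι → R) :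
    f (mon u z) = mon u fun j => f (z j) := by
  simp [mon]

lemma val_mon_le {ι : Type} [Fintype ι] (V : ValuationSubring ℂ) {u : ι → ℕ} {δ : ℕ}
    (hu : ∀ j, u j ≤ δ) (z : ι → ℂ) :
    V.valuation (mon u z) ≤ ∏ j, max 1 (V.valuation (z j)) ^ δ := by
  rw [mon, map_prod]
  refine Finset.prod_le_prod' fun j _ => ?_
  rw [map_pow]
  exact (pow_le_pow_left₀ zero_le (le_max_right _ _) _).trans
    (pow_le_pow_right₀ (le_max_left _ _) (hu j))

lemma norm_mon_le {ι : Type} [Fintype ι] {u : ι → ℕ} {δ : ℕ}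
    (hu : ∀ j, u j ≤ δ) (z : ι → ℂ) : ‖mon u z‖ ≤ ∏ j, max 1 ‖z j‖ ^ δ := by
  rw [mon, norm_prod]
  refine Finset.prod_le_prod (fun j _ => norm_nonneg _) fun j _ => ?_
  rw [norm_pow]
  exact (pow_le_pow_left₀ (norm_nonneg _) (le_max_right _ _) _).trans
    (pow_le_pow_right₀ (le_max_left _ _) (hu j))

lemma val_int_le (V : ValuationSubring ℂ) (n : ℤ) : V.valuation (n : ℂ) ≤ 1 :=
  (V.valuation_le_one_iff _).2 (intCast_mem V n)

lemma val_det_le (V : ValuationSubring ℂ) {r : ℕ} (M : Matrix (Fin r) (Fin r) ℂ)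
    (b : Fin r → V.ValueGroup) (h : ∀ l k, V.valuation (M l k) ≤ b l) :
    V.valuation M.det ≤ ∏ l, b l := by
  rw [← Matrix.det_transpose, Matrix.det_apply']
  refine Valuation.map_sum_le _ fun π _ => ?_
  rw [map_mul, map_prod]
  calc _ ≤ 1 * ∏ l, b l :=
        mul_le_mul' (val_int_le V _) (Finset.prod_le_prod' fun l _ => h l (π l))
    _ = _ := one_mul _

lemma norm_det_le {r : ℕ} (M : Matrix (Fin r) (Fin r) ℂ)
    (b : Fin r → ℝ) (h : ∀ l k, ‖M l k‖ ≤ b l) :
    ‖M.det‖ ≤ (r.factorial : ℝ) * ∏ l, b l := by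
  rw [← Matrix.det_transpose, Matrix.det_apply']
  refine (norm_sum_le _ _).trans ?_
  calc _ ≤ ∑ _π : Equiv.Perm (Fin r), ∏ l, b l := by
        refine Finset.sum_le_sum fun π _ => ?_
        rw [norm_mul, norm_prod]
        have : ‖((Equiv.Perm.sign π : ℤ) : ℂ)‖ = 1 := by
          rcases Int.units_eq_one_or (Equiv.Perm.sign π) with h | h <;> simp [h]
        rw [this, one_mul]
        exact Finset.prod_le_prod (fun l _ => norm_nonneg _) fun l _ => h l (π l)
    _ = _ := by simp [Fintype.card_perm]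

/-- Siegel lemma in terms of the rank. -/
lemma siegel_rank {ι S : Type} [Fintype ι] [Fintype S] (ξ : ι → K) {H : ℝ} (hH : 0 ≤ H)
    (hξ : ∀ j, MB (minpoly ℚ (ξ j)) H) (u : S → ι → ℕ) {δ : ℕ} (hu : ∀ s j, u s j ≤ δ)
    {r : ℕ} (hr : r = Module.finrank ℚ (Submodule.span ℚ (Set.range fun s => mon (u s) ξ)))
    (B : ℕ) (hB : (r.factorial : ℝ) * H ^ (δ * (r * Fintype.card ι)) *
      (2 * (Fintype.card S * B) + 1) ^ r < (B + 1) ^ Fintype.card S) :
    ∃ x : S → ℤ, x ≠ 0 ∧ (∀ s, |x s| ≤ B) ∧ ∑ s, (x s : K) * mon (u s) ξ = 0 := by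
  obtain ⟨r', γ, A, hr', hli, hγ, hA, h0⟩ := exists_int_coords fun s => mon (u s) ξ
  obtain rfl : r' = r := hr'.trans hr.symm
  obtain ⟨σ, hσ⟩ := exists_emb_det γ hli
  let F := normalClosure ℚ K ℂ
  have : NumberField F := ⟨⟩
  let σ' : Fin r' → (K →ₐ[ℚ] F) := fun l => (normalClosure.algHomEquiv ℚ K ℂ).symm (σ l)
  let θ : Fin r' × ι → F := fun p => σ' p.1 (ξ p.2)
  have hθ : ∀ p, HB (θ p) H := fun p => HB_of_MB _ (by
    rw [minpoly.algHom_eq _ (σ' p.1).injective]; exact hξ p.2)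
  let Δ : F := (Matrix.of fun l k => σ' l (γ k)).det
  have hmap : ∀ τ : F →ₐ[ℚ] ℂ, τ Δ = (Matrix.of fun l k => τ (σ' l (γ k))).det := by
    intro τ
    rw [AlgHom.map_det]
    rfl
  have hΔ : Δ ≠ 0 := by
    intro h
    apply hσ
    have := hmap F.val
    rw [h, map_zero] at this
    exact this.symm
  have hsm : Small θ δ Δ := by
    intro V τ
    rw [hmap, Fintype.prod_prod_type]
    refine val_det_le V _ _ fun l k => ?_
    obtain ⟨c, hc⟩ := (Submodule.mem_span_range_iff_exists_fun ℤ).1 (hγ k)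
    simp only [Matrix.of_apply]
    rw [← hc, map_sum, map_sum]
    refine Valuation.map_sum_le _ fun s _ => ?_
    rw [map_zsmul, map_zsmul, zsmul_eq_mul, map_mul, map_mon, map_mon]
    calc _ ≤ 1 * _ := mul_le_mul' (val_int_le V _) (val_mon_le V (hu s) _)
      _ = _ := one_mul _
  have hN : ∀ U : Fin r' → S, |((Matrix.of fun k l => A (U k) l).det : ℝ)| ≤
      (r'.factorial : ℝ) * H ^ (δ * (r' * Fintype.card ι)) := by
    intro U
    have := factor_le hH hθ hΔ hsm (N := |((Matrix.of fun k l => A (U k) l).det : ℝ)|)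
      (C := r'.factorial) (abs_nonneg _) (by positivity) (by
        intro τ
        have e : (Matrix.of fun l k => τ (σ' l (mon (u (U k)) ξ))) =
            (Matrix.of fun l k => τ (σ' l (γ k))) *
              ((Matrix.of fun k l => A (U k) l).map (Int.cast : ℤ → ℂ)).transpose := by
          ext l k
          simp only [Matrix.of_apply, Matrix.mul_apply, Matrix.transpose_apply, Matrix.map_apply]
          rw [hA (U k), map_sum, map_sum]
          refine Finset.sum_congr rfl fun i _ => ?_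
          rw [map_zsmul, map_zsmul, zsmul_eq_mul, mul_comm]
        have h1 := norm_det_le (Matrix.of fun l k => τ (σ' l (mon (u (U k)) ξ)))
          (fun l => ∏ j, max 1 ‖τ (σ' l (ξ j))‖ ^ δ) (fun l k => by
            simp only [Matrix.of_apply]
            rw [map_mon, map_mon]
            exact norm_mon_le (hu _) _)
        rw [e, Matrix.det_mul, Matrix.det_transpose, ← Int.cast_det, ← hmap, norm_mul,
          Complex.norm_intCast, mul_comm] at h1
        rw [Fintype.prod_prod_type]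
        exact h1)
    simpa using this
  have hpos : 0 ≤ (r'.factorial : ℝ) * H ^ (δ * (r' * Fintype.card ι)) := by positivity
  obtain ⟨x, hx0, hxB, hx⟩ := siegel_minor A
    ⌊(r'.factorial : ℝ) * H ^ (δ * (r' * Fintype.card ι))⌋₊ B h0 (fun U => by
      have h1 := hN U
      rw [← Int.cast_abs, ← Int.natCast_natAbs, Int.cast_natCast] at h1
      rw [← Int.natCast_natAbs]
      exact_mod_cast Nat.le_floor h1) (by
      have h1 := Nat.floor_le hpos
      have h2 : (⌊(r'.factorial : ℝ) * H ^ (δ * (r' * Fintype.card ι))⌋₊ : ℝ) *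
          (2 * (Fintype.card S * B) + 1) ^ r' < (B + 1) ^ Fintype.card S :=
        lt_of_le_of_lt (by gcongr) hB
      exact_mod_cast h2)
  refine ⟨x, hx0, hxB, ?_⟩
  calc ∑ s, (x s : K) * mon (u s) ξ = ∑ s, ∑ k, (x s * A s k) • γ k := by
        refine Finset.sum_congr rfl fun s _ => ?_
        rw [hA s, Finset.mul_sum]
        refine Finset.sum_congr rfl fun k _ => ?_
        simp [mul_assoc]
    _ = ∑ k, (∑ s, x s • A s) k • γ k := by
        rw [Finset.sum_comm]
        refine Finset.sum_congr rfl fun k _ => ?_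
        rw [← Finset.sum_smul]
        simp
    _ = 0 := by rw [hx]; simp

end Pool.Agent.P.MP_92cab9_nt
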