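import Mathlib
import Pool.Agent.P.MP_92cab9_nt.SiegelK

/-!
The derivations `∂/∂X_i + Y_i ∂/∂Y_i` and the choice of a good family of monomials.
-/

open MvPolynomial Sum

namespace Pool.Agent.P.MP_92cab9_nt

/-- The index type of the `2 n` variables. -/
abbrev Ix (n : ℕ) : Type := Fin n ⊕ Fin n

/-- The derivation along the graph of the exponential function. -/
noncomputable def DD {n : ℕ} (i : Fin n) :
    Derivation ℚ (MvPolynomial (Ix n) ℚ) (MvPolynomial (Ix n) ℚ) :=
  pderiv (inl i) + (X (inr i) : MvPolynomial (Ix n) ℚ) • pderiv (inr i)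

/-- The value of the derivative of a monomial. -/
def dmon {n : ℕ} {R : Type} [CommRing R] (i : Fin n) (u : Ix n → ℕ) (z : Ix n → R) : R :=
  (u (inl i) : R) * mon (u - Pi.single (inl i) 1) z + (u (inr i) : R) * mon u z

lemma coeff_X_mul_pderiv {σ : Type} (j : σ) (P : MvPolynomial σ ℚ) (u : σ →₀ ℕ) :
    coeff u (X j * pderiv j P) = u j * coeff u P := by
  classical
  induction P using MvPolynomial.induction_on' with
  | monomial m r =>
    rw [X_mul_pderiv_monomial, coeff_smul, coeff_monomial]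
    split_ifs with h
    · subst h; simp
    · simp
  | add p q hp hq => rw [map_add, mul_add, coeff_add, hp, hq, coeff_add, mul_add]

lemma coeff_DD {n : ℕ} (i : Fin n) (P : MvPolynomial (Ix n) ℚ) (u : Ix n →₀ ℕ) :
    coeff u (DD i P) = coeff (u + Finsupp.single (inl i) 1) P * (u (inl i) + 1) +
      u (inr i) * coeff u P := by
  simp only [DD, Derivation.add_apply, Derivation.smul_apply, smul_eq_mul, coeff_add,
    coeff_pderiv, coeff_X_mul_pderiv]

lemma aeval_monomial_eq {σ R : Type} [Fintype σ] [CommRing R] [Algebra ℚ R] (z : σ → R)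
    (u : σ →₀ ℕ) (c : ℚ) : aeval z (monomial u c) = c • mon u z := by
  rw [aeval_monomial, Finsupp.prod_fintype _ _ (by simp), Algebra.smul_def, mon]

lemma aeval_DD_monomial {n : ℕ} {R : Type} [CommRing R] [Algebra ℚ R] (z : Ix n → R) (i : Fin n)
    (u : Ix n →₀ ℕ) (c : ℚ) : aeval z (DD i (monomial u c)) = c • dmon i u z := by
  simp only [DD, Derivation.add_apply, Derivation.smul_apply, smul_eq_mul, X_mul_pderiv_monomial,
    map_add, map_nsmul]
  rw [pderiv_monomial, aeval_monomial_eq, aeval_monomial_eq, dmon, smul_add]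
  have e : ⇑(u - Finsupp.single (inl i) 1 : Ix n →₀ ℕ) = ⇑u - Pi.single (inl i) 1 := by
    rw [Finsupp.coe_tsub, Finsupp.single_eq_pi_single]
  rw [e]
  simp [Algebra.smul_def, mul_assoc, mul_left_comm]

lemma exists_monomialOrder (σ : Type) [Fintype σ] : Nonempty (MonomialOrder.{0, 0} σ) := by
  classical
  let _ : LinearOrder σ := LinearOrder.lift' (Fintype.equivFin σ) (Equiv.injective _)
  have : WellFoundedGT σ := Finite.to_wellFoundedGT
  exact ⟨MonomialOrder.lex⟩

variable {K : Type} [Field K] [NumberField K]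

/-- A nonzero polynomial of a box vanishing at `ξ` can be chosen with a derivative that does not
vanish at `ξ`. -/
lemma exists_DD_ne_zero {n : ℕ} (ξ : Ix n → K) (hα : ∀ i, ξ (inr i) ≠ 0) (t : ℕ)
    (h : ∃ P ∈ restrictDegree (Ix n) ℚ t, P ≠ 0 ∧ aeval ξ P = 0) :
    ∃ P ∈ restrictDegree (Ix n) ℚ t, aeval ξ P = 0 ∧ ∃ i, aeval ξ (DD i P) ≠ 0 := by
  classical
  by_contra hcon
  push Not at hcon
  obtain ⟨m⟩ := exists_monomialOrder (Ix n)
  obtain ⟨P₀, hP₀⟩ := h
  obtain ⟨_, ⟨P, ⟨hPt, hP0, hPξ⟩, rfl⟩, hmin⟩ := WellFounded.has_min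
    (wellFounded_lt (α := m.syn)) ((fun P => m.toSyn (m.degree P)) ''
      {P | P ∈ restrictDegree (Ix n) ℚ t ∧ P ≠ 0 ∧ aeval ξ P = 0}) ⟨_, P₀, hP₀, rfl⟩
  set d := m.degree P with hd
  have hcoef : ∀ i u, coeff u (DD i P - (d (inr i) : ℚ) • P) =
      coeff (u + Finsupp.single (inl i) 1) P * (u (inl i) + 1) +
        ((u (inr i) : ℚ) - d (inr i)) * coeff u P := by
    intro i u
    rw [coeff_sub, coeff_DD, coeff_smul, smul_eq_mul]
    ring
  have hQ : ∀ i, DD i P - (d (inr i) : ℚ) • P = 0 := by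
    intro i
    by_contra hne
    have hsupp : ∀ u ∈ (DD i P - (d (inr i) : ℚ) • P).support,
        (u + Finsupp.single (inl i) 1 ∈ P.support) ∨ (u ∈ P.support ∧ u ≠ d) := by
      intro u hu
      rw [mem_support_iff, hcoef] at hu
      by_contra hc
      rw [not_or, not_and_or, notMem_support_iff, notMem_support_iff, not_not] at hc
      rcases hc with ⟨h1, h2 | h2⟩
      · simp [h1, h2] at hu
      · rw [h1, h2] at hu
        simp at hu
    refine hmin _ ⟨_, ⟨?_, hne, ?_⟩, rfl⟩ ?_
    · rw [mem_restrictDegree] at hPt ⊢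
      intro u hu j
      rcases hsupp u hu with h1 | h1
      · exact le_trans (by simp) (hPt _ h1 j)
      · exact hPt _ h1.1 j
    · rw [map_sub, map_smul, hPξ, hcon P hPt hPξ i]
      simp
    · rcases hsupp _ (m.degree_mem_support hne) with h1 | h1
      · refine lt_of_lt_of_le (m.toSyn_strictMono ?_) (m.le_degree h1)
        exact lt_add_of_pos_right _ (by
          rw [pos_iff_ne_zero]; exact Finsupp.single_ne_zero.2 one_ne_zero)
      · exact lt_of_le_of_ne (m.le_degree h1.1) fun h => h1.2 (m.toSyn.injective h)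
  have hrel : ∀ i u, coeff (u + Finsupp.single (inl i) 1) P * (u (inl i) + 1) +
      ((u (inr i) : ℚ) - d (inr i)) * coeff u P = 0 := by
    intro i u
    rw [← hcoef, hQ, coeff_zero]
  have hY : ∀ u ∈ P.support, ∀ i, u (inr i) = d (inr i) := by
    intro u hu i
    by_contra hne
    obtain ⟨v, hv, hmax⟩ := Finset.exists_max_image
      (P.support.filter fun v => v (inr i) ≠ d (inr i)) (fun v => v (inl i))
      ⟨u, Finset.mem_filter.2 ⟨hu, hne⟩⟩
    rw [Finset.mem_filter] at hv
    have h1 : v + Finsupp.single (inl i) 1 ∈ P.support := by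
      rw [mem_support_iff]
      intro h0
      have h2 := hrel i v
      rw [h0, zero_mul, zero_add, mul_eq_zero] at h2
      rcases h2 with h2 | h2
      · exact hv.2 (by exact_mod_cast sub_eq_zero.1 h2)
      · exact mem_support_iff.1 hv.1 h2
    have h3 := hmax _ (Finset.mem_filter.2 ⟨h1, by simpa using hv.2⟩)
    simp at h3
  have hX : ∀ u ∈ P.support, ∀ i, u (inl i) = 0 := by
    intro u hu i
    by_contra hne
    have e : u - Finsupp.single (inl i) 1 + Finsupp.single (inl i) 1 = u :=
      tsub_add_cancel_of_le (Finsupp.single_le_iff.2 (by omega))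
    have h1 := hrel i (u - Finsupp.single (inl i) 1)
    rw [e] at h1
    have h2 : (u - Finsupp.single (inl i) 1 : Ix n →₀ ℕ) (inr i) = d (inr i) := by
      simpa using hY u hu i
    rw [h2, sub_self, zero_mul, add_zero, mul_eq_zero] at h1
    rcases h1 with h1 | h1
    · exact mem_support_iff.1 hu h1
    · exact absurd h1 (by positivity)
  have hdm : d ∈ P.support := m.degree_mem_support hP0
  have hs : P.support = {d} := by
    rw [Finset.eq_singleton_iff_unique_mem]
    refine ⟨hdm, fun u hu => ?_⟩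
    ext j
    rcases j with i | i
    · rw [hX u hu i, hX d hdm i]
    · exact hY u hu i
  have hPe : P = monomial d (coeff d P) := by
    conv_lhs => rw [P.as_sum, hs, Finset.sum_singleton]
  rw [hPe, aeval_monomial_eq, smul_eq_zero] at hPξ
  rcases hPξ with h | h
  · exact mem_support_iff.1 hdm h
  · rw [mon, Finset.prod_eq_zero_iff] at h
    obtain ⟨j, -, hj⟩ := h
    rcases j with i | i
    · rw [hX d hdm i] at hj
      simp at hj
    · exact hα i (pow_eq_zero_iff (by
        rintro h0; rw [h0] at hj; simp at hj) |>.1 hj)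

/-- The polynomial with coefficients `c` on the box of side `s`. -/
noncomputable def boxPoly {σ : Type} [Fintype σ] [DecidableEq σ] (s : ℕ) :
    ((σ → Fin s) → ℚ) →ₗ[ℚ] MvPolynomial σ ℚ :=
  Fintype.linearCombination ℚ fun u : σ → Fin s =>
    monomial (Finsupp.equivFunOnFinite.symm fun j => (u j : ℕ)) 1

lemma boxPoly_injective {σ : Type} [Fintype σ] [DecidableEq σ] (s : ℕ) :
    Function.Injective (boxPoly (σ := σ) s) := by
  rw [boxPoly, ← linearIndependent_iff_injective_fintypeLinearCombination]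
  have h := (basisMonomials σ ℚ).linearIndependent.comp
    (fun u : σ → Fin s => Finsupp.equivFunOnFinite.symm fun j => (u j : ℕ)) (by
      intro u v huv
      funext j
      exact Fin.ext (congrFun (Finsupp.equivFunOnFinite.symm.injective huv) j))
  simpa [Function.comp_def] using h

lemma boxPoly_mem {σ : Type} [Fintype σ] [DecidableEq σ] (s : ℕ) (c : (σ → Fin (s + 1)) → ℚ) :
    boxPoly (s + 1) c ∈ restrictDegree σ ℚ s := by
  rw [boxPoly, Fintype.linearCombination_apply]
  refine Submodule.sum_mem _ fun u _ => Submodule.smul_mem _ _ ?_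
  rw [mem_restrictDegree]
  intro v hv j
  have := support_monomial_subset hv
  rw [Finset.mem_singleton] at this
  subst this
  exact Nat.lt_succ_iff.1 (u j).2

lemma mul_mem_restrictDegree {σ : Type} {a b : ℕ} {P Q : MvPolynomial σ ℚ}
    (hP : P ∈ restrictDegree σ ℚ a) (hQ : Q ∈ restrictDegree σ ℚ b) :
    P * Q ∈ restrictDegree σ ℚ (a + b) := by
  classical
  rw [mem_restrictDegree] at *
  intro u hu j
  obtain ⟨v, hv, w, hw, rfl⟩ := Finset.mem_add.1 (support_mul P Q hu)
  exact add_le_add (hP v hv j) (hQ w hw j)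

/-- The good family of monomials. -/
lemma exists_family {n : ℕ} (hn : 1 ≤ n) (ξ : Ix n → K) (hα : ∀ i, ξ (inr i) ≠ 0) :
    ∃ t : ℕ, 1 ≤ t ∧ t ^ (2 * n) ≤ Module.finrank ℚ K ∧ ∃ (i : Fin n) (κ : Type) (_ : Fintype κ)
      (a : κ → Ix n → Fin (2 * t)), Function.Injective a ∧
      LinearIndependent ℚ (fun k => (mon (fun j => (a k j : ℕ)) ξ,
        dmon i (fun j => (a k j : ℕ)) ξ)) ∧
      Module.finrank ℚ (Submodule.span ℚ (Set.range fun k => mon (fun j => (a k j : ℕ)) ξ)) +
        t ^ (2 * n) ≤ Fintype.card κ := by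
  classical
  have hcard : ∀ s, Module.finrank ℚ ((Ix n → Fin s) → ℚ) = s ^ (2 * n) := by
    intro s
    simp [two_mul]
  have hinj : ∀ s, (¬ ∃ P ∈ restrictDegree (Ix n) ℚ s, P ≠ 0 ∧ aeval ξ P = 0) →
      Function.Injective ((aeval ξ).toLinearMap ∘ₗ boxPoly (σ := Ix n) (s + 1)) := by
    intro s hs
    rw [injective_iff_map_eq_zero]
    intro c hc
    by_contra hc0
    exact hs ⟨_, boxPoly_mem s c, fun h => hc0 (boxPoly_injective _ (by rw [h, map_zero])), hc⟩
  have hex : ∃ s, ∃ P ∈ restrictDegree (Ix n) ℚ s, P ≠ 0 ∧ aeval ξ P = 0 := by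
    refine ⟨Module.finrank ℚ K, ?_⟩
    by_contra hs
    have h1 := LinearMap.finrank_le_finrank_of_injective (hinj _ hs)
    rw [hcard] at h1
    have h2 := Nat.le_self_pow (show 2 * n ≠ 0 by omega) (Module.finrank ℚ K + 1)
    omega
  have ht0 : Nat.find hex ≠ 0 := by
    intro h0
    obtain ⟨P, hP, hP0, hPξ⟩ := Nat.find_spec hex
    rw [h0, mem_restrictDegree] at hP
    have hs : P.support = {0} := by
      rw [Finset.eq_singleton_iff_nonempty_unique_mem]
      refine ⟨support_nonempty.2 hP0, fun u hu => ?_⟩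
      ext j
      simpa using hP u hu j
    have hPe : P = monomial 0 (coeff 0 P) := by
      conv_lhs => rw [P.as_sum, hs, Finset.sum_singleton]
    rw [hPe, aeval_monomial_eq] at hPξ
    simp only [mon, Finsupp.coe_zero, Pi.zero_apply, pow_zero, Finset.prod_const_one,
      smul_eq_zero, one_ne_zero, or_false] at hPξ
    apply hP0
    rw [hPe, hPξ, map_zero]
  obtain ⟨s, hs⟩ := Nat.exists_eq_succ_of_ne_zero ht0
  have hmin := hinj s (Nat.find_min hex (by omega))
  obtain ⟨P, hP, hPξ, i, hi⟩ := exists_DD_ne_zero ξ hα _ (Nat.find_spec hex)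
  rw [hs] at hP
  let ψ : (Ix n → Fin (2 * (s + 1))) → K × K := fun u =>
    (mon (fun j => (u j : ℕ)) ξ, dmon i (fun j => (u j : ℕ)) ξ)
  let R := Submodule.span ℚ (Set.range ψ)
  have hR : ∀ Q ∈ restrictDegree (Ix n) ℚ (s + 1 + s), (aeval ξ Q, aeval ξ (DD i Q)) ∈ R := by
    intro Q hQ
    rw [mem_restrictDegree] at hQ
    rw [Q.as_sum, map_sum, map_sum, map_sum, prod_mk_sum]
    refine Submodule.sum_mem _ fun u hu => ?_
    rw [aeval_monomial_eq, aeval_DD_monomial, ← Prod.smul_mk]
    refine Submodule.smul_mem _ _ (Submodule.subset_span ⟨fun j => ⟨u j, ?_⟩, rfl⟩)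
    have := hQ u hu j
    omega
  obtain ⟨κ, a, ha, hspan, hli⟩ := exists_linearIndependent' ℚ ψ
  have : Finite κ := Finite.of_injective a ha
  let _ : Fintype κ := Fintype.ofFinite κ
  refine ⟨s + 1, by omega, ?_, i, κ, inferInstance, a, ha, hli, ?_⟩
  · rw [← hcard]
    exact LinearMap.finrank_le_finrank_of_injective hmin
  · have h1 : Module.finrank ℚ R = Fintype.card κ := by
      rw [← finrank_span_eq_card hli, hspan]
    let π : R →ₗ[ℚ] K := (LinearMap.fst ℚ K K).domRestrict R
    have h2 := π.finrank_range_add_finrank_ker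
    have h3 : Submodule.span ℚ (Set.range fun k => mon (fun j => (a k j : ℕ)) ξ) ≤
        LinearMap.range π := by
      rw [Submodule.span_le]
      rintro _ ⟨k, rfl⟩
      exact ⟨⟨ψ (a k), Submodule.subset_span ⟨a k, rfl⟩⟩, rfl⟩
    have h4 := Submodule.finrank_mono h3
    let g : ((Ix n → Fin (s + 1)) → ℚ) →ₗ[ℚ] K × K :=
      LinearMap.inr ℚ K K ∘ₗ LinearMap.mulLeft ℚ (aeval ξ (DD i P)) ∘ₗ
        ((aeval ξ).toLinearMap ∘ₗ boxPoly (σ := Ix n) (s + 1))
    have hg : Function.Injective g :=
      LinearMap.inr_injective.comp ((mul_right_injective₀ hi).comp hmin)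
    have hgR : ∀ c, g c ∈ R := by
      intro c
      have := hR _ (mul_mem_restrictDegree hP (boxPoly_mem s c))
      rw [Derivation.leibniz, map_mul, hPξ, zero_mul, smul_eq_mul, smul_eq_mul, map_add, map_mul,
        map_mul, hPξ, zero_mul, zero_add, mul_comm] at this
      exact this
    let g' : ((Ix n → Fin (s + 1)) → ℚ) →ₗ[ℚ] LinearMap.ker π :=
      LinearMap.codRestrict _ (LinearMap.codRestrict R g hgR) fun c => rfl
    have hg' : Function.Injective g' := fun c c' h =>
      hg (congrArg (fun z : LinearMap.ker π => (z.1.1 : K × K)) h)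
    have h5 := LinearMap.finrank_le_finrank_of_injective hg'
    rw [hcard] at h5
    omega

end Pool.Agent.P.MP_92cab9_nt
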