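import Mathlib
import Pool.Agent.P.MP_92cab9_nt.Poly

/-!
The algebraic part: a small integer polynomial vanishing at `ξ` with a derivative that is not
too small at `ξ`.
-/

open Sum

namespace Pool.Agent.P.MP_92cab9_nt

/-- The value of the polynomial with coefficients `c`. -/
def Fc {n s : ℕ} {R : Type} [CommRing R] (c : (Ix n → Fin s) → ℤ) (z : Ix n → R) : R :=
  ∑ u, (c u : R) * mon (fun j => (u j : ℕ)) z

/-- The value of the derivative of the polynomial with coefficients `c`. -/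
def Gc {n s : ℕ} {R : Type} [CommRing R] (i : Fin n) (c : (Ix n → Fin s) → ℤ) (z : Ix n → R) : R :=
  ∑ u, (c u : R) * dmon i (fun j => (u j : ℕ)) z

lemma map_dmon {n : ℕ} {R S G : Type} [CommRing R] [CommRing S] [FunLike G R S]
    [RingHomClass G R S] (f : G) (i : Fin n) (u : Ix n → ℕ) (z : Ix n → R) :
    f (dmon i u z) = dmon i u fun j => f (z j) := by
  simp [dmon, map_mon]

lemma val_dmon_le {n : ℕ} (V : ValuationSubring ℂ) (i : Fin n) {u : Ix n → ℕ} {δ : ℕ}
    (hu : ∀ j, u j ≤ δ) (z : Ix n → ℂ) :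
    V.valuation (dmon i u z) ≤ ∏ j, max 1 (V.valuation (z j)) ^ δ := by
  have h1 : ∀ k : ℕ, V.valuation (k : ℂ) ≤ 1 := fun k => by simp
  refine Valuation.map_add_le _ ?_ ?_
  · rw [map_mul]
    calc _ ≤ 1 * _ := mul_le_mul' (h1 _) (val_mon_le V (fun j => (Nat.sub_le _ _).trans (hu j)) _)
      _ = _ := one_mul _
  · rw [map_mul]
    calc _ ≤ 1 * _ := mul_le_mul' (h1 _) (val_mon_le V hu _)
      _ = _ := one_mul _

lemma norm_dmon_le {n : ℕ} (i : Fin n) {u : Ix n → ℕ} {δ : ℕ}
    (hu : ∀ j, u j ≤ δ) (z : Ix n → ℂ) :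
    ‖dmon i u z‖ ≤ 2 * δ * ∏ j, max 1 ‖z j‖ ^ δ := by
  have h1 : ∀ j, ‖((u j : ℕ) : ℂ)‖ ≤ δ := fun j => by
    rw [Complex.norm_natCast]; exact_mod_cast hu j
  refine (norm_add_le _ _).trans ?_
  rw [norm_mul, norm_mul, two_mul, add_mul]
  exact add_le_add
    (mul_le_mul (h1 _) (norm_mon_le (fun j => (Nat.sub_le _ _).trans (hu j)) _) (norm_nonneg _)
      (by positivity))
    (mul_le_mul (h1 _) (norm_mon_le hu _) (norm_nonneg _) (by positivity))

/-- The constant of the algebraic part. -/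
def cA (n : ℕ) : ℝ := 2 ^ (2 * n) * (12 * n + 1) + 8 * n + 4

lemma le_exp_self (x : ℝ) : x ≤ Real.exp x := by linarith [Real.add_one_le_exp x]

variable {K : Type} [Field K] [NumberField K]

lemma alg_main {n : ℕ} (hn : 1 ≤ n) (τ₀ : K →ₐ[ℚ] ℂ) (ξ : Ix n → K) (hα : ∀ i, ξ (inr i) ≠ 0)
    {h : ℝ} (hh : 1 ≤ h) (hξ : ∀ j, MB (minpoly ℚ (ξ j)) (Real.exp h)) :
    ∃ t : ℕ, 1 ≤ t ∧ t ^ (2 * n) ≤ Module.finrank ℚ K ∧ ∃ (i : Fin n)
      (c : (Ix n → Fin (2 * t)) → ℤ), (∀ u, |(c u : ℝ)| ≤ Real.exp (cA n * (t * h))) ∧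
      Fc c (fun j => τ₀ (ξ j)) = 0 ∧
      Real.exp (-(cA n * (t * h * Module.finrank ℚ K))) ≤ ‖Gc i c fun j => τ₀ (ξ j)‖ := by
  classical
  obtain ⟨t, ht, htd, i, κ, _, a, ha, hli, hrank⟩ := exists_family hn ξ hα
  refine ⟨t, ht, htd, i, ?_⟩
  set T : ℝ := t * h with hT
  have ht' : (1 : ℝ) ≤ t := by exact_mod_cast ht
  have htT : (t : ℝ) ≤ T := le_mul_of_one_le_right (by positivity) hh
  have hT1 : 1 ≤ T := ht'.trans htT
  set L := Fintype.card κ with hL
  set r := Module.finrank ℚ (Submodule.span ℚ (Set.range fun k => mon (fun j => (a k j : ℕ)) ξ))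
    with hr
  have hg : 1 ≤ t ^ (2 * n) := Nat.one_le_pow _ _ ht
  have hLle : L ≤ (2 * t) ^ (2 * n) := by
    have := Fintype.card_le_of_injective a ha
    simpa [two_mul n] using this
  have hLexp : (L : ℝ) ≤ Real.exp (4 * n * T) := by
    calc (L : ℝ) ≤ (2 * t) ^ (2 * n) := by exact_mod_cast hLle
      _ ≤ Real.exp (2 * T) ^ (2 * n) := by
          gcongr
          exact le_trans (by linarith) (le_exp_self _)
      _ = _ := by rw [← Real.exp_nat_mul]; congr 1; push_cast; ring
  have hL1 : (1 : ℝ) ≤ L := by exact_mod_cast (show 1 ≤ L by omega)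
  have hHexp : Real.exp h ^ (2 * t * (2 * n)) = Real.exp (4 * n * T) := by
    rw [← Real.exp_nat_mul]; congr 1; push_cast; ring
  set Y : ℝ := Real.exp ((12 * n + 1) * T) with hY
  have hY1 : 1 ≤ Y := Real.one_le_exp (by positivity)
  set B := ⌊Y ^ 2 ^ (2 * n)⌋₊ with hB
  have hB1 : Y ^ 2 ^ (2 * n) < B + 1 := Nat.lt_floor_add_one _
  have hB2 : (B : ℝ) ≤ Real.exp (2 ^ (2 * n) * (12 * n + 1) * T) := by
    refine (Nat.floor_le (by positivity)).trans (le_of_eq ?_)
    rw [hY, ← Real.exp_nat_mul]; congr 1; push_cast; ring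
  have hu : ∀ k j, (a k j : ℕ) ≤ 2 * t := fun k j => (a k j).2.le
  obtain ⟨x, hx0, hxB, hx⟩ := siegel_rank ξ (Real.exp_pos h).le hξ (fun k j => (a k j : ℕ)) hu
    hr B (by
      have e1 : (r.factorial : ℝ) ≤ Real.exp (4 * n * T) ^ r := by
        calc (r.factorial : ℝ) ≤ (r : ℝ) ^ r := by exact_mod_cast Nat.factorial_le_pow r
          _ ≤ _ := by
            gcongr
            exact le_trans (by exact_mod_cast (show r ≤ L by omega)) hLexp
      have e2 : Real.exp h ^ (2 * t * (r * Fintype.card (Ix n))) = Real.exp (4 * n * T) ^ r := by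
        rw [← hHexp, ← pow_mul]
        congr 1
        simp only [Fintype.card_sum, Fintype.card_fin]
        ring
      have e3 : (2 * ((L : ℝ) * B) + 1) ≤ Real.exp T * Real.exp (4 * n * T) * (B + 1) := by
        have h2 : (2 : ℝ) ≤ Real.exp T := by linarith [Real.add_one_le_exp T]
        calc (2 * ((L : ℝ) * B) + 1) ≤ 2 * L * (B + 1) := by nlinarith
          _ ≤ _ := by gcongr
      have e4 : Y ^ r < ((B : ℝ) + 1) ^ (t ^ (2 * n)) := by
        calc Y ^ r ≤ Y ^ (2 ^ (2 * n) * t ^ (2 * n)) := by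
              refine pow_le_pow_right₀ hY1 ?_
              rw [← mul_pow]; omega
          _ = (Y ^ 2 ^ (2 * n)) ^ (t ^ (2 * n)) := pow_mul _ _ _
          _ < _ := pow_lt_pow_left₀ hB1 (by positivity) (by omega)
      rw [e2, ← hL]
      calc (r.factorial : ℝ) * Real.exp (4 * n * T) ^ r * (2 * ((L : ℝ) * B) + 1) ^ r
          ≤ Real.exp (4 * n * T) ^ r * Real.exp (4 * n * T) ^ r *
            (Real.exp T * Real.exp (4 * n * T) * (B + 1)) ^ r := by gcongr
        _ = Y ^ r * ((B : ℝ) + 1) ^ r := by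
            rw [← mul_pow, ← mul_pow, ← mul_pow]
            congr 1
            rw [hY, show (12 * n + 1) * T = 4 * n * T + 4 * n * T + (T + 4 * n * T) by ring]
            simp only [Real.exp_add]
            ring
        _ < ((B : ℝ) + 1) ^ (t ^ (2 * n)) * ((B : ℝ) + 1) ^ r := by gcongr
        _ ≤ _ := by
            rw [← pow_add]
            exact pow_le_pow_right₀ (by linarith [(Nat.cast_nonneg B : (0 : ℝ) ≤ B)]) (by omega))
  set z : K := ∑ k, (x k : K) * dmon i (fun j => (a k j : ℕ)) ξ with hz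
  have hz0 : z ≠ 0 := by
    intro h0
    apply hx0
    have h1 := Fintype.linearIndependent_iff.1 hli (fun k => (x k : ℚ)) (by
      rw [Prod.ext_iff, Prod.fst_sum, Prod.snd_sum]
      constructor
      · simpa [Algebra.smul_def] using hx
      · simpa [Algebra.smul_def] using h0)
    funext k
    exact_mod_cast h1 k
  have hxB' : ∀ k, |(x k : ℝ)| ≤ B := fun k => by exact_mod_cast hxB k
  have hsum : ∀ f : (Ix n → Fin (2 * t)) → ℂ,
      ∑ k, (x k : ℂ) * f (a k) = ∑ u, ((Function.extend a x 0 u : ℤ) : ℂ) * f u := by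
    intro f
    refine Fintype.sum_of_injective a ha _ _ (fun u hu => ?_) fun k => ?_
    · rw [Function.extend_apply' _ _ _ hu]; simp
    · rw [ha.extend_apply]
  refine ⟨Function.extend a x 0, fun u => ?_, ?_, ?_⟩
  · have h1 : (B : ℝ) ≤ Real.exp (cA n * T) := by
      refine hB2.trans (Real.exp_le_exp.2 ?_)
      unfold cA
      gcongr
      linarith [(Nat.cast_nonneg n : (0 : ℝ) ≤ n)]
    by_cases hua : ∃ k, a k = u
    · obtain ⟨k, rfl⟩ := hua
      rw [ha.extend_apply]
      exact (hxB' k).trans h1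
    · rw [Function.extend_apply' _ _ _ hua]
      simpa using (Real.exp_pos _).le
  · rw [Fc, ← hsum fun u => mon (fun j => (u j : ℕ)) fun j => τ₀ (ξ j)]
    have := congrArg τ₀ hx
    rw [map_sum, map_zero] at this
    simpa [map_mon] using this
  · have e : Gc i (Function.extend a x 0) (fun j => τ₀ (ξ j)) = τ₀ z := by
      rw [Gc, ← hsum fun u => dmon i (fun j => (u j : ℕ)) fun j => τ₀ (ξ j), hz, map_sum]
      simp [map_dmon]
    rw [e]
    have hl := liouville (θ := ξ) (δ := 2 * t) (fun j => HB_of_MB _ (hξ j)) hz0 (by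
        intro V τ
        rw [hz, map_sum]
        refine Valuation.map_sum_le _ fun k _ => ?_
        rw [map_mul, map_intCast, map_mul, map_dmon]
        calc _ ≤ 1 * _ := mul_le_mul' (val_int_le V _) (val_dmon_le V i (hu k) _)
          _ = _ := one_mul _)
      (C := Real.exp ((2 ^ (2 * n) * (12 * n + 1) + 4 * n + 4) * T))
      (Real.one_le_exp (by positivity)) (by
        intro τ
        rw [hz, map_sum]
        refine (norm_sum_le _ _).trans ?_
        calc ∑ k, ‖τ ((x k : K) * dmon i (fun j => (a k j : ℕ)) ξ)‖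
            ≤ ∑ _k : κ, (B : ℝ) * (2 * (2 * t : ℕ) * ∏ j, max 1 ‖τ (ξ j)‖ ^ (2 * t)) := by
              refine Finset.sum_le_sum fun k _ => ?_
              rw [map_mul, map_intCast, map_dmon, norm_mul, Complex.norm_intCast]
              exact mul_le_mul (hxB' k) (norm_dmon_le i (hu k) _) (norm_nonneg _) (by positivity)
          _ = (L * B * (4 * t)) * ∏ j, max 1 ‖τ (ξ j)‖ ^ (2 * t) := by
              rw [Finset.sum_const, Finset.card_univ, nsmul_eq_mul, ← hL]
              push_cast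
              ring
          _ ≤ _ := by
              gcongr
              have h4 : (4 * t : ℝ) ≤ Real.exp (4 * T) := le_trans (by linarith) (le_exp_self _)
              calc (L : ℝ) * B * (4 * t) ≤ Real.exp (4 * n * T) *
                    Real.exp (2 ^ (2 * n) * (12 * n + 1) * T) * Real.exp (4 * T) := by gcongr
                _ = _ := by rw [← Real.exp_add, ← Real.exp_add]; congr 1; ring) τ₀
    have e2 : Fintype.card (Ix n) = 2 * n := by simp [two_mul]
    rw [e2, hHexp, ← Real.exp_add, ← Real.exp_nat_mul] at hl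
    rw [Real.exp_neg, inv_le_iff_one_le_mul₀ (Real.exp_pos _)]
    refine hl.trans (le_of_eq ?_)
    congr 2
    unfold cA
    ring

end Pool.Agent.P.MP_92cab9_nt
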