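import Mathlib
import Pool.Agent.P.MP_92cab9_nt.Alg

/-!
The analytic part: Lipschitz bounds, derivatives along the graph of the exponential function and
the measure of the set where a function is small while its derivative is not.
-/

open Sum MeasureTheory Set

namespace Pool.Agent.P.MP_92cab9_nt

lemma meas_small {n : ℕ} (i : Fin n) {R : ℝ} (hR : 0 ≤ R) (f g : (Fin n → ℝ) → ℝ)
    (hf : Continuous f) (hg : Continuous g)
    (hder : ∀ (x : Fin n → ℝ) (t : ℝ),
      HasDerivAt (fun s : ℝ => f (x + s • Pi.single i 1)) (g (x + t • Pi.single i 1)) t)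
    {M ε η τ : ℝ} (hM : 0 ≤ M) (hη : 0 < η) (hτ : 0 < τ) (N : ℕ)
    (hLip : ∀ x ∈ Metric.closedBall (0 : Fin n → ℝ) R, ∀ s, 0 ≤ s → s ≤ 1 →
      |g (x + s • Pi.single i 1) - g x| ≤ M * s)
    (h1 : 4 * ε < τ * η) (h2 : N * τ ≤ 1) (h3 : M * (N * τ) ≤ η / 2) :
    N * volume {x ∈ Metric.closedBall (0 : Fin n → ℝ) R | |f x| ≤ ε ∧ η ≤ |g x|} ≤
      ENNReal.ofReal ((2 * (R + 1)) ^ n) := by
  set E := {x ∈ Metric.closedBall (0 : Fin n → ℝ) R | |f x| ≤ ε ∧ η ≤ |g x|} with hE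
  have hEm : MeasurableSet E := by
    apply IsClosed.measurableSet
    exact Metric.isClosed_closedBall.inter
      ((isClosed_le hf.abs continuous_const).inter (isClosed_le continuous_const hg.abs))
  have key : ∀ x ∈ E, ∀ s, τ ≤ s → s ≤ N * τ → x + s • Pi.single i 1 ∉ E := by
    rintro x ⟨hx, hfx, hgx⟩ s hs1 hs2 ⟨-, hfy, -⟩
    have hs0 : 0 < s := hτ.trans_le hs1
    obtain ⟨c, hc, hcs⟩ := exists_hasDerivAt_eq_slope (fun s : ℝ => f (x + s • Pi.single i 1))
      (fun t => g (x + t • Pi.single i 1)) hs0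
      (fun t _ => (hder x t).continuousAt.continuousWithinAt) (fun t _ => hder x t)
    simp only [zero_smul, add_zero, sub_zero] at hcs
    have h4 := hLip x hx c hc.1.le (by linarith [hc.2])
    have h5 : M * c ≤ η / 2 := le_trans (mul_le_mul_of_nonneg_left (by linarith [hc.2]) hM) h3
    have h6 : η / 2 ≤ |g (x + c • Pi.single i 1)| := by
      have := abs_sub_abs_le_abs_sub (g x) (g (x + c • Pi.single i 1))
      rw [abs_sub_comm] at this
      linarith
    rw [hcs, abs_div, abs_of_pos hs0, le_div_iff₀ hs0] at h6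
    have h7 := abs_sub (f (x + s • Pi.single i 1)) (f x)
    nlinarith
  let A : ℕ → Set (Fin n → ℝ) := fun k => (fun y => y + (-(k * τ)) • Pi.single i 1) ⁻¹' E
  have hA : ∀ k, volume (A k) = volume E := fun k => measure_preimage_add_right _ _ _
  have hAm : ∀ k, MeasurableSet (A k) := fun k => hEm.preimage (by fun_prop)
  have hdisj : ∀ k k', k < k' → k' < N → Disjoint (A k) (A k') := by
    intro k k' hkk hk'
    rw [Set.disjoint_left]
    intro y hy hy'
    have hk1 : (k : ℝ) + 1 ≤ k' := by exact_mod_cast hkk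
    have hk2 : (k' : ℝ) ≤ N := by exact_mod_cast hk'.le
    have hk0 : (0 : ℝ) ≤ k := Nat.cast_nonneg k
    refine key _ hy' ((k' - k) * τ) (by nlinarith) (by nlinarith) ?_
    have e : y + (-(k' * τ)) • Pi.single i 1 + ((k' - k) * τ) • Pi.single i 1 =
        y + (-(k * τ)) • (Pi.single i 1 : Fin n → ℝ) := by
      rw [add_assoc, ← add_smul]
      congr 2
      ring
    rw [e]
    exact hy
  have hsub : (⋃ k ∈ Finset.range N, A k) ⊆ Metric.closedBall (0 : Fin n → ℝ) (R + 1) := by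
    intro y hy
    simp only [mem_iUnion, Finset.mem_range] at hy
    obtain ⟨k, hk, hy⟩ := hy
    have h4 : ‖y + (-(k * τ)) • (Pi.single i 1 : Fin n → ℝ)‖ ≤ R := by simpa using hy.1
    have hk2 : (k : ℝ) ≤ N := by exact_mod_cast hk.le
    have h5 : ‖(-(k * τ)) • (Pi.single i 1 : Fin n → ℝ)‖ ≤ 1 := by
      rw [norm_smul, Pi.norm_single, norm_one, mul_one, norm_neg, Real.norm_of_nonneg
        (by positivity)]
      nlinarith
    rw [mem_closedBall_zero_iff]
    calc ‖y‖ = ‖(y + (-(k * τ)) • (Pi.single i 1 : Fin n → ℝ)) -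
          (-(k * τ)) • (Pi.single i 1 : Fin n → ℝ)‖ := by rw [add_sub_cancel_right]
      _ ≤ _ := (norm_sub_le _ _).trans (add_le_add h4 h5)
  have h4 := measure_mono (μ := volume) hsub
  rw [measure_biUnion_finset (fun k hk k' hk' hne => by
      rcases lt_or_gt_of_ne hne with h | h
      · exact hdisj k k' h (Finset.mem_range.1 hk')
      · exact (hdisj k' k h (Finset.mem_range.1 hk)).symm) (fun k _ => hAm k),
    Real.volume_pi_closedBall _ (by linarith)] at h4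
  simpa [hA] using h4

section Lip

variable {𝕜 : Type} [RCLike 𝕜]

lemma norm_pow_sub_le {a b : 𝕜} {ρ e : ℝ} (hρ : 1 ≤ ρ) (ha : ‖a‖ ≤ ρ) (hb : ‖b‖ ≤ ρ)
    (hab : ‖a - b‖ ≤ e) (k : ℕ) : ‖a ^ k - b ^ k‖ ≤ k * ρ ^ k * e := by
  have he : 0 ≤ e := (norm_nonneg _).trans hab
  induction k with
  | zero => simp
  | succ k ih =>
    have e1 : a ^ (k + 1) - b ^ (k + 1) = (a ^ k - b ^ k) * a + b ^ k * (a - b) := by ring
    have h1 : ‖b ^ k‖ ≤ ρ ^ (k + 1) := by
      rw [norm_pow]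
      exact (pow_le_pow_left₀ (norm_nonneg _) hb _).trans (pow_le_pow_right₀ hρ (by omega))
    rw [e1]
    refine (norm_add_le _ _).trans ?_
    rw [norm_mul, norm_mul]
    calc ‖a ^ k - b ^ k‖ * ‖a‖ + ‖b ^ k‖ * ‖a - b‖
        ≤ k * ρ ^ k * e * ρ + ρ ^ (k + 1) * e := by gcongr
      _ = _ := by push_cast; ring

lemma norm_prod_pow_le {ι : Type} (s : Finset ι) {a : ι → 𝕜} {ρ : ℝ} (ha : ∀ j, ‖a j‖ ≤ ρ)
    (u : ι → ℕ) : ‖∏ j ∈ s, a j ^ u j‖ ≤ ρ ^ ∑ j ∈ s, u j := by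
  rw [norm_prod, ← Finset.prod_pow_eq_pow_sum]
  refine Finset.prod_le_prod (fun j _ => norm_nonneg _) fun j _ => ?_
  rw [norm_pow]
  exact pow_le_pow_left₀ (norm_nonneg _) (ha j) _

lemma norm_prod_sub_le {ι : Type} (s : Finset ι) {a b : ι → 𝕜} {ρ e : ℝ} (hρ : 1 ≤ ρ)
    (he : 0 ≤ e) (ha : ∀ j, ‖a j‖ ≤ ρ) (hb : ∀ j, ‖b j‖ ≤ ρ) (hab : ∀ j, ‖a j - b j‖ ≤ e)
    (u : ι → ℕ) : ‖∏ j ∈ s, a j ^ u j - ∏ j ∈ s, b j ^ u j‖ ≤
      (∑ j ∈ s, u j : ℕ) * ρ ^ (∑ j ∈ s, u j) * e := by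
  classical
  induction s using Finset.induction_on with
  | empty => simp
  | insert j s hj ih =>
    rw [Finset.prod_insert hj, Finset.prod_insert hj, Finset.sum_insert hj]
    have e1 : a j ^ u j * ∏ j ∈ s, a j ^ u j - b j ^ u j * ∏ j ∈ s, b j ^ u j =
        (a j ^ u j - b j ^ u j) * ∏ j ∈ s, a j ^ u j +
          b j ^ u j * (∏ j ∈ s, a j ^ u j - ∏ j ∈ s, b j ^ u j) := by ring
    have h1 : ‖b j ^ u j‖ ≤ ρ ^ u j := by
      rw [norm_pow]
      exact pow_le_pow_left₀ (norm_nonneg _) (hb j) _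
    have h2 := norm_pow_sub_le hρ (ha j) (hb j) (hab j) (u j)
    have h3 := norm_prod_pow_le s ha u
    rw [e1]
    refine (norm_add_le _ _).trans ?_
    rw [norm_mul, norm_mul]
    calc _ ≤ u j * ρ ^ u j * e * ρ ^ ∑ j ∈ s, u j +
          ρ ^ u j * ((∑ j ∈ s, u j : ℕ) * ρ ^ (∑ j ∈ s, u j) * e) := by gcongr
      _ = _ := by push_cast; ring

lemma norm_mon_sub_le {n δ : ℕ} {a b : Ix n → 𝕜} {ρ e : ℝ} (hρ : 1 ≤ ρ)
    (he : 0 ≤ e) (ha : ∀ j, ‖a j‖ ≤ ρ) (hb : ∀ j, ‖b j‖ ≤ ρ) (hab : ∀ j, ‖a j - b j‖ ≤ e)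
    {u : Ix n → ℕ} (hu : ∀ j, u j ≤ δ) :
    ‖mon u a - mon u b‖ ≤ (2 * n * δ : ℕ) * ρ ^ (2 * n * δ) * e := by
  have h1 : ∑ j, u j ≤ 2 * n * δ := by
    calc ∑ j, u j ≤ ∑ _j : Ix n, δ := Finset.sum_le_sum fun j _ => hu j
      _ = _ := by simp [two_mul]
  refine (norm_prod_sub_le Finset.univ hρ he ha hb hab u).trans ?_
  gcongr

lemma norm_dmon_sub_le {n δ : ℕ} {a b : Ix n → 𝕜} {ρ e : ℝ} (hρ : 1 ≤ ρ)
    (he : 0 ≤ e) (ha : ∀ j, ‖a j‖ ≤ ρ) (hb : ∀ j, ‖b j‖ ≤ ρ) (hab : ∀ j, ‖a j - b j‖ ≤ e)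
    (i : Fin n) {u : Ix n → ℕ} (hu : ∀ j, u j ≤ δ) :
    ‖dmon i u a - dmon i u b‖ ≤ 2 * δ * ((2 * n * δ : ℕ) * ρ ^ (2 * n * δ) * e) := by
  have e1 : dmon i u a - dmon i u b =
      (u (inl i) : 𝕜) * (mon (u - Pi.single (inl i) 1) a - mon (u - Pi.single (inl i) 1) b) +
        (u (inr i) : 𝕜) * (mon u a - mon u b) := by
    unfold dmon; ring
  have h1 : ∀ j, ‖((u j : ℕ) : 𝕜)‖ ≤ δ := fun j => by
    rw [RCLike.norm_natCast]; exact_mod_cast hu j
  rw [e1, two_mul (δ : ℝ), add_mul]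
  refine (norm_add_le _ _).trans ?_
  rw [norm_mul, norm_mul]
  exact add_le_add
    (mul_le_mul (h1 _) (norm_mon_sub_le hρ he ha hb hab
      (fun j => (Nat.sub_le _ _).trans (hu j))) (norm_nonneg _) (by positivity))
    (mul_le_mul (h1 _) (norm_mon_sub_le hρ he ha hb hab hu) (norm_nonneg _) (by positivity))

lemma norm_sum_sub_le {S : Type} [Fintype S] (c : S → ℤ) {B e : ℝ} (hc : ∀ s, |(c s : ℝ)| ≤ B)
    (p q : S → 𝕜) (h : ∀ s, ‖p s - q s‖ ≤ e) :
    ‖∑ s, (c s : 𝕜) * p s - ∑ s, (c s : 𝕜) * q s‖ ≤ Fintype.card S * B * e := by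
  rw [← Finset.sum_sub_distrib]
  refine (norm_sum_le _ _).trans ?_
  calc _ ≤ ∑ _s : S, B * e := by
        refine Finset.sum_le_sum fun s _ => ?_
        rw [← mul_sub, norm_mul, ← RCLike.ofReal_intCast, RCLike.norm_ofReal]
        exact mul_le_mul (hc s) (h s) (norm_nonneg _) ((abs_nonneg _).trans (hc s))
    _ = _ := by simp [mul_assoc]

/-- The common Lipschitz constant. -/
def lipC (n t : ℕ) (B ρ : ℝ) : ℝ :=
  (2 * t) ^ (2 * n) * B * (2 * (2 * t : ℕ) * ((2 * n * (2 * t) : ℕ) * ρ ^ (2 * n * (2 * t))))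

lemma norm_Gc_sub_le {n t : ℕ} {a b : Ix n → 𝕜} {ρ e B : ℝ} (hρ : 1 ≤ ρ)
    (he : 0 ≤ e) (ha : ∀ j, ‖a j‖ ≤ ρ) (hb : ∀ j, ‖b j‖ ≤ ρ) (hab : ∀ j, ‖a j - b j‖ ≤ e)
    (i : Fin n) (c : (Ix n → Fin (2 * t)) → ℤ) (hc : ∀ u, |(c u : ℝ)| ≤ B) :
    ‖Gc i c a - Gc i c b‖ ≤ lipC n t B ρ * e := by
  refine (norm_sum_sub_le c hc _ _ fun u =>
    norm_dmon_sub_le hρ he ha hb hab i fun j => (u j).2.le).trans (le_of_eq ?_)
  simp only [lipC, Fintype.card_pi, Fintype.card_fin, Finset.prod_const, Finset.card_univ,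
    Fintype.card_sum, ← two_mul]
  push_cast
  ring

lemma norm_Fc_sub_le {n t : ℕ} (ht : 1 ≤ t) {a b : Ix n → 𝕜} {ρ e B : ℝ} (hρ : 1 ≤ ρ)
    (he : 0 ≤ e) (hB : 0 ≤ B) (ha : ∀ j, ‖a j‖ ≤ ρ) (hb : ∀ j, ‖b j‖ ≤ ρ)
    (hab : ∀ j, ‖a j - b j‖ ≤ e)
    (c : (Ix n → Fin (2 * t)) → ℤ) (hc : ∀ u, |(c u : ℝ)| ≤ B) :
    ‖Fc c a - Fc c b‖ ≤ lipC n t B ρ * e := by
  refine (norm_sum_sub_le c hc _ _ fun u =>
    norm_mon_sub_le hρ he ha hb hab fun j => (u j).2.le).trans ?_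
  simp only [lipC, Fintype.card_pi, Fintype.card_fin, Finset.prod_const, Finset.card_univ,
    Fintype.card_sum, ← two_mul]
  have h1 : (1 : ℝ) ≤ 2 * (2 * t : ℕ) := by
    have : (1 : ℝ) ≤ t := by exact_mod_cast ht
    push_cast
    linarith
  have h0 : 0 ≤ ρ := zero_le_one.trans hρ
  calc (((2 * t) ^ (2 * n) : ℕ) : ℝ) * B * ((2 * n * (2 * t) : ℕ) * ρ ^ (2 * n * (2 * t)) * e)
      = (2 * t) ^ (2 * n) * B * (1 * ((2 * n * (2 * t) : ℕ) * ρ ^ (2 * n * (2 * t)))) * e := by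
        push_cast; ring
    _ ≤ _ := by gcongr

end Lip

/-- The point `(x, e ^ x)`. -/
noncomputable def gr {n : ℕ} (x : Fin n → ℝ) : Ix n → ℝ := Sum.elim x fun i => Real.exp (x i)

lemma continuous_gr {n : ℕ} (j : Ix n) : Continuous fun x : Fin n → ℝ => gr x j := by
  rcases j with i | i
  · exact continuous_apply i
  · exact Real.continuous_exp.comp (continuous_apply i)

lemma hasDerivAt_aeval {n : ℕ} (i : Fin n) (x : Fin n → ℝ) (t : ℝ) (P : MvPolynomial (Ix n) ℚ) :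
    HasDerivAt (fun s : ℝ => MvPolynomial.aeval (gr (x + s • Pi.single i 1)) P)
      (MvPolynomial.aeval (gr (x + t • Pi.single i 1)) (DD i P)) t := by
  classical
  induction P using MvPolynomial.induction_on with
  | C a =>
    have : DD i (MvPolynomial.C a) = 0 := (DD i).map_algebraMap a
    rw [this]
    simpa using hasDerivAt_const t _
  | add p q hp hq =>
    simp only [map_add]
    exact hp.add hq
  | mul_X p j hp =>
    have hlin : ∀ k, HasDerivAt (fun s : ℝ => (x + s • (Pi.single i 1 : Fin n → ℝ)) k)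
        ((Pi.single i 1 : Fin n → ℝ) k) t := by
      intro k
      simpa using ((hasDerivAt_id t).mul_const ((Pi.single i 1 : Fin n → ℝ) k)).const_add (x k)
    have hX : HasDerivAt (fun s : ℝ => gr (x + s • Pi.single i 1) j)
        (MvPolynomial.aeval (gr (x + t • Pi.single i 1)) (DD i (MvPolynomial.X j))) t := by
      rcases j with k | k
      · refine (hlin k).congr_deriv ?_
        by_cases h : k = i
        · subst h; simp [DD]
        · simp [DD, h]
      · refine (hlin k).exp.congr_deriv ?_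
        by_cases h : k = i
        · subst h; simp [DD, gr]
        · simp [DD, h]
    simp only [map_mul, MvPolynomial.aeval_X, Derivation.leibniz, smul_eq_mul, map_add]
    refine (hp.mul hX).congr_deriv ?_
    ring

lemma hasDerivAt_Fc {n s : ℕ} (i : Fin n) (c : (Ix n → Fin s) → ℤ) (x : Fin n → ℝ) (t : ℝ) :
    HasDerivAt (fun r : ℝ => Fc c (gr (x + r • Pi.single i 1)))
      (Gc i c (gr (x + t • Pi.single i 1))) t := by
  unfold Fc Gc
  refine HasDerivAt.fun_sum fun u _ => HasDerivAt.const_mul _ ?_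
  have := hasDerivAt_aeval i x t
    (MvPolynomial.monomial (Finsupp.equivFunOnFinite.symm fun j => (u j : ℕ)) 1)
  simpa [aeval_monomial_eq, aeval_DD_monomial] using this

lemma continuous_Fc {n s : ℕ} (c : (Ix n → Fin s) → ℤ) :
    Continuous fun x : Fin n → ℝ => Fc c (gr x) := by
  unfold Fc mon
  exact continuous_finsetSum _ fun u _ => continuous_const.mul
    (continuous_finsetProd _ fun j _ => (continuous_gr j).pow _)

lemma continuous_Gc {n s : ℕ} (i : Fin n) (c : (Ix n → Fin s) → ℤ) :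
    Continuous fun x : Fin n → ℝ => Gc i c (gr x) := by
  unfold Gc dmon mon
  exact continuous_finsetSum _ fun u _ => continuous_const.mul
    ((continuous_const.mul (continuous_finsetProd _ fun j _ => (continuous_gr j).pow _)).add
      (continuous_const.mul (continuous_finsetProd _ fun j _ => (continuous_gr j).pow _)))

lemma norm_gr_le {n : ℕ} {x : Fin n → ℝ} {R : ℝ} (hx : ‖x‖ ≤ R) (j : Ix n) :
    ‖gr x j‖ ≤ Real.exp R := by
  rcases j with i | i
  · exact ((norm_le_pi_norm x i).trans hx).trans (le_exp_self R)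
  · have : x i ≤ R := (le_abs_self _).trans ((norm_le_pi_norm x i).trans hx)
    simpa [gr] using this

lemma norm_gr_sub_le {n : ℕ} {x : Fin n → ℝ} {R s : ℝ} (hR : 0 ≤ R) (hx : ‖x‖ ≤ R) (hs : 0 ≤ s)
    (hs1 : s ≤ 1) (i : Fin n) (j : Ix n) :
    ‖gr (x + s • Pi.single i 1) j - gr x j‖ ≤ Real.exp (R + 1) * s := by
  have h1 : 1 ≤ Real.exp (R + 1) := Real.one_le_exp (by linarith)
  rcases j with k | k
  · by_cases h : k = i
    · subst h
      simp only [gr, elim_inl, Pi.add_apply, Pi.smul_apply, Pi.single_eq_same, smul_eq_mul, mul_one,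
        add_sub_cancel_left, Real.norm_of_nonneg hs]
      nlinarith
    · simp only [gr, elim_inl, Pi.add_apply, Pi.smul_apply, Pi.single_eq_of_ne h, smul_eq_mul,
        mul_zero, add_zero, sub_self, norm_zero]
      positivity
  · by_cases h : k = i
    · subst h
      simp only [gr, elim_inr, Pi.add_apply, Pi.smul_apply, Pi.single_eq_same, smul_eq_mul, mul_one]
      have h2 : x k ≤ R := (le_abs_self _).trans ((norm_le_pi_norm x k).trans hx)
      have h3 : Real.exp (x k) ≤ Real.exp (x k + s) := Real.exp_le_exp.2 (by linarith)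
      have h4 : Real.exp (x k + s) ≤ Real.exp (R + 1) := Real.exp_le_exp.2 (by linarith)
      have h5 : Real.exp (x k + s) * (1 - s) ≤ Real.exp (x k) := by
        calc Real.exp (x k + s) * (1 - s) ≤ Real.exp (x k + s) * Real.exp (-s) := by
              gcongr
              linarith [Real.add_one_le_exp (-s)]
          _ = _ := by rw [← Real.exp_add]; congr 1; ring
      rw [Real.norm_of_nonneg (by linarith)]
      nlinarith
    · simp only [gr, elim_inr, Pi.add_apply, Pi.smul_apply, Pi.single_eq_of_ne h, smul_eq_mul,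
        mul_zero, add_zero, sub_self, norm_zero]
      positivity

end Pool.Agent.P.MP_92cab9_nt
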