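import Mathlib
import Pool.Agent.P.MP_92cab9_nt.Meas

/-!
The Borel-Cantelli argument.
-/

open Sum MeasureTheory Set

namespace Pool.Agent.P.MP_92cab9_nt

/-- The event attached to one polynomial. -/
def Ev {n : ℕ} (R C C' : ℝ) (N t : ℕ) (i : Fin n) (c : (Ix n → Fin (2 * t)) → ℤ) :
    Set (Fin n → ℝ) :=
  {x | ‖x‖ ≤ R ∧ ∃ z : Ix n → ℂ, (∀ j, ‖z j - (gr x j : ℝ)‖ ≤ Real.exp (-(C' * N))) ∧
    Fc c z = 0 ∧ Real.exp (-(C * N)) ≤ ‖Gc i c z‖}

lemma ofReal_Fc {n s : ℕ} (c : (Ix n → Fin s) → ℤ) (z : Ix n → ℝ) :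
    ((Fc c z : ℝ) : ℂ) = Fc c fun j => (z j : ℂ) := by
  simp [Fc, mon]

lemma ofReal_Gc {n s : ℕ} (i : Fin n) (c : (Ix n → Fin s) → ℤ) (z : Ix n → ℝ) :
    ((Gc i c z : ℝ) : ℂ) = Gc i c fun j => (z j : ℂ) := by
  simp [Gc, dmon, mon]

lemma lipC_le {n t N : ℕ} (hn : 1 ≤ n) (ht : 1 ≤ t) (htN : t ^ (2 * n) ≤ N) {C R : ℝ}
    (hR : 0 ≤ R) : lipC n t (Real.exp (C * N)) (Real.exp (R + 2)) ≤
      Real.exp ((C + 5 + 8 * n + 4 * n * (R + 2)) * N) := by
  have h1 : t ≤ N := (Nat.le_self_pow (by omega) t).trans htN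
  have h2 : (t : ℝ) ≤ N := by exact_mod_cast h1
  have hN : (1 : ℝ) ≤ N := by exact_mod_cast ht.trans h1
  have hn0 : (0 : ℝ) ≤ n := Nat.cast_nonneg n
  have a1 : (2 * (t : ℝ)) ^ (2 * n) ≤ Real.exp (4 * n * N) * Real.exp N := by
    rw [mul_pow]
    refine mul_le_mul ?_ ?_ (by positivity) (by positivity)
    · calc (2 : ℝ) ^ (2 * n) ≤ Real.exp 2 ^ (2 * n) := by gcongr; exact le_exp_self 2
        _ = Real.exp (4 * n) := by rw [← Real.exp_nat_mul]; congr 1; push_cast; ring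
        _ ≤ _ := Real.exp_le_exp.2 (by nlinarith)
    · exact le_trans (by exact_mod_cast htN) (le_exp_self _)
  have a2 : (2 * ((2 * t : ℕ) : ℝ)) ≤ Real.exp (4 * N) := by
    refine le_trans ?_ (le_exp_self _)
    push_cast; linarith
  have a3 : ((2 * n * (2 * t) : ℕ) : ℝ) ≤ Real.exp (4 * n * N) := by
    refine le_trans ?_ (le_exp_self _)
    push_cast; nlinarith
  have a4 : Real.exp (R + 2) ^ (2 * n * (2 * t)) ≤ Real.exp (4 * n * (R + 2) * N) := by
    rw [← Real.exp_nat_mul]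
    refine Real.exp_le_exp.2 ?_
    push_cast
    have : 0 ≤ 4 * (n : ℝ) * (R + 2) := by positivity
    nlinarith
  unfold lipC
  calc _ ≤ Real.exp (4 * n * N) * Real.exp N * Real.exp (C * N) *
        (Real.exp (4 * N) * (Real.exp (4 * n * N) * Real.exp (4 * n * (R + 2) * N))) := by gcongr
    _ = _ := by simp only [← Real.exp_add]; congr 1; ring

lemma two_mul_exp_le {a b : ℝ} (h : a + 1 ≤ b) : 2 * Real.exp a ≤ Real.exp b := by
  calc 2 * Real.exp a ≤ Real.exp 1 * Real.exp a := by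
        gcongr; linarith [Real.add_one_le_exp 1]
    _ = Real.exp (a + 1) := by rw [← Real.exp_add, add_comm]
    _ ≤ _ := Real.exp_le_exp.2 h

lemma single_event {n : ℕ} (hn : 1 ≤ n) {R C C6 : ℝ} (hR : 0 ≤ R) (hC : 0 ≤ C) (hC6 : 0 ≤ C6) :
    ∃ C' : ℝ, 0 ≤ C' ∧ ∀ (N t : ℕ), 1 ≤ t → t ^ (2 * n) ≤ N → ∀ (i : Fin n)
      (c : (Ix n → Fin (2 * t)) → ℤ), (∀ u, |(c u : ℝ)| ≤ Real.exp (C * N)) →
      volume (Ev R C C' N t i c) ≤
        ENNReal.ofReal (Real.exp (-(C6 * N)) * (2 * (R + 1)) ^ n) := by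
  set C4 := C + 5 + 8 * n + 4 * n * (R + 2) with hC4
  have hC40 : 0 ≤ C4 := by positivity
  refine ⟨2 * C4 + C6 + R + 2 * C + 10, by positivity, fun N t ht htN i c hc => ?_⟩
  set C' := 2 * C4 + C6 + R + 2 * C + 10 with hC'
  have hN : (1 : ℝ) ≤ N := by
    exact_mod_cast ht.trans ((Nat.le_self_pow (by omega) t).trans htN)
  have hΛ := lipC_le hn ht htN (C := C) hR
  rw [← hC4] at hΛ
  have hρ : 1 ≤ Real.exp (R + 2) := Real.one_le_exp (by linarith)
  set K := ⌈Real.exp (C6 * N)⌉₊ with hK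
  have hK1 : Real.exp (C6 * N) ≤ K := Nat.le_ceil _
  have hK2 : (K : ℝ) ≤ Real.exp ((C6 + 1) * N) := by
    have h1 : (K : ℝ) < Real.exp (C6 * N) + 1 := Nat.ceil_lt_add_one (Real.exp_pos _).le
    have h2 : 1 ≤ Real.exp (C6 * N) := Real.one_le_exp (by positivity)
    have h3 := two_mul_exp_le (a := C6 * N) (b := (C6 + 1) * N) (by linarith)
    linarith
  have hKτ : K * Real.exp (-((C6 + C4 + R + C + 4) * N)) ≤ Real.exp (-((C4 + R + C + 3) * N)) := by
    calc _ ≤ Real.exp ((C6 + 1) * N) * Real.exp (-((C6 + C4 + R + C + 4) * N)) := by gcongr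
      _ = _ := by rw [← Real.exp_add]; congr 1; ring
  have hmain := meas_small i hR (fun x => Fc c (gr x)) (fun x => Gc i c (gr x)) (continuous_Fc c)
    (continuous_Gc i c) (hasDerivAt_Fc i c) (M := Real.exp ((C4 + R + 1) * N))
    (ε := Real.exp ((C4 - C') * N)) (η := Real.exp (-((C + 1) * N)))
    (τ := Real.exp (-((C6 + C4 + R + C + 4) * N))) (Real.exp_pos _).le (Real.exp_pos _)
    (Real.exp_pos _) K (by
      intro x hx s hs0 hs1
      rw [mem_closedBall_zero_iff] at hx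
      have hxs : ‖x + s • (Pi.single i 1 : Fin n → ℝ)‖ ≤ R + 2 := by
        refine (norm_add_le _ _).trans ?_
        rw [norm_smul, Pi.norm_single, norm_one, mul_one, Real.norm_of_nonneg hs0]
        linarith
      have h1 := norm_Gc_sub_le (𝕜 := ℝ) hρ (by positivity) (norm_gr_le hxs)
        (norm_gr_le (hx.trans (by linarith))) (norm_gr_sub_le hR hx hs0 hs1 i) i c hc
      rw [Real.norm_eq_abs] at h1
      refine h1.trans ?_
      calc _ ≤ Real.exp (C4 * N) * (Real.exp ((R + 1) * N) * s) := by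
            gcongr
            nlinarith
        _ = _ := by rw [← mul_assoc, ← Real.exp_add]; congr 2; ring)
    (by
      rw [← Real.exp_add]
      have h1 := two_mul_exp_le (a := (C4 - C') * N) (b := (C4 - C') * N + 1) le_rfl
      have h2 := two_mul_exp_le (a := (C4 - C') * N + 1) (b := (C4 - C') * N + 2) (by linarith)
      have h3 : Real.exp ((C4 - C') * N + 2) <
          Real.exp (-((C6 + C4 + R + C + 4) * N) + -((C + 1) * N)) :=
        Real.exp_lt_exp.2 (by rw [hC']; nlinarith)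
      linarith)
    (hKτ.trans (Real.exp_le_one_iff.2 (neg_nonpos.2 (by positivity))))
    (by
      have h1 := two_mul_exp_le (a := -((C + 2) * N)) (b := -((C + 1) * N)) (by linarith)
      have h2 : Real.exp ((C4 + R + 1) * N) * (K * Real.exp (-((C6 + C4 + R + C + 4) * N))) ≤
          Real.exp (-((C + 2) * N)) := by
        calc _ ≤ Real.exp ((C4 + R + 1) * N) * Real.exp (-((C4 + R + C + 3) * N)) := by gcongr
          _ = _ := by rw [← Real.exp_add]; congr 1; ring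
      linarith)
  have hsub : Ev R C C' N t i c ⊆ {x ∈ Metric.closedBall (0 : Fin n → ℝ) R |
      |Fc c (gr x)| ≤ Real.exp ((C4 - C') * N) ∧
        Real.exp (-((C + 1) * N)) ≤ |Gc i c (gr x)|} := by
    rintro x ⟨hx, z, hz, hF, hG⟩
    have hb : ∀ j, ‖((gr x j : ℝ) : ℂ)‖ ≤ Real.exp (R + 2) := fun j => by
      rw [Complex.norm_real]
      exact norm_gr_le (hx.trans (by linarith)) j
    have ha : ∀ j, ‖z j‖ ≤ Real.exp (R + 2) := fun j => by
      have h1 : ‖((gr x j : ℝ) : ℂ)‖ ≤ Real.exp R := by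
        rw [Complex.norm_real]
        exact norm_gr_le hx j
      have h2 : Real.exp (-(C' * N)) ≤ 1 := Real.exp_le_one_iff.2 (neg_nonpos.2 (by positivity))
      have h3 := two_mul_exp_le (a := R) (b := R + 2) (by linarith)
      have h4 : 1 ≤ Real.exp R := Real.one_le_exp hR
      have h5 := norm_add_le (z j - (gr x j : ℝ)) ((gr x j : ℝ) : ℂ)
      rw [sub_add_cancel] at h5
      linarith [hz j]
    have hε : lipC n t (Real.exp (C * N)) (Real.exp (R + 2)) * Real.exp (-(C' * N)) ≤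
        Real.exp ((C4 - C') * N) := by
      calc _ ≤ Real.exp (C4 * N) * Real.exp (-(C' * N)) := by gcongr
        _ = _ := by rw [← Real.exp_add]; congr 1; ring
    have h1 := (norm_Fc_sub_le ht hρ (Real.exp_pos _).le (Real.exp_pos _).le ha hb hz c hc).trans hε
    have h2 := (norm_Gc_sub_le hρ (Real.exp_pos _).le ha hb hz i c hc).trans hε
    rw [hF, zero_sub, norm_neg, ← ofReal_Fc, Complex.norm_real, Real.norm_eq_abs] at h1
    rw [← ofReal_Gc] at h2
    refine ⟨mem_closedBall_zero_iff.2 hx, h1, ?_⟩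
    have h3 := norm_add_le (Gc i c z - ((Gc i c (gr x) : ℝ) : ℂ)) ((Gc i c (gr x) : ℝ) : ℂ)
    rw [sub_add_cancel, Complex.norm_real, Real.norm_eq_abs] at h3
    have h4 := two_mul_exp_le (a := -((C + 1) * N)) (b := -(C * N)) (by linarith)
    have h5 : Real.exp ((C4 - C') * N) ≤ Real.exp (-((C + 1) * N)) :=
      Real.exp_le_exp.2 (by rw [hC']; nlinarith)
    linarith
  refine (measure_mono hsub).trans ?_
  set E := {x ∈ Metric.closedBall (0 : Fin n → ℝ) R |
      |Fc c (gr x)| ≤ Real.exp ((C4 - C') * N) ∧ Real.exp (-((C + 1) * N)) ≤ |Gc i c (gr x)|}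
  have h1 : (1 : ENNReal) ≤ ENNReal.ofReal (Real.exp (-(C6 * N))) * K := by
    rw [← ENNReal.ofReal_natCast, ← ENNReal.ofReal_mul (Real.exp_pos _).le, ← ENNReal.ofReal_one]
    refine ENNReal.ofReal_le_ofReal ?_
    rw [Real.exp_neg, ← div_eq_inv_mul, le_div_iff₀ (Real.exp_pos _), one_mul]
    exact hK1
  calc volume E = 1 * volume E := (one_mul _).symm
    _ ≤ ENNReal.ofReal (Real.exp (-(C6 * N))) * K * volume E := by gcongr
    _ ≤ ENNReal.ofReal (Real.exp (-(C6 * N))) * ENNReal.ofReal ((2 * (R + 1)) ^ n) := by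
        rw [mul_assoc]; gcongr
    _ = _ := (ENNReal.ofReal_mul (Real.exp_pos _).le).symm

/-- The bad set at level `N`. -/
def Bad (n : ℕ) (R C C' : ℝ) (N : ℕ) : Set (Fin n → ℝ) :=
  {x | ∃ t : ℕ, 1 ≤ t ∧ t ^ (2 * n) ≤ N ∧ ∃ (i : Fin n) (c : (Ix n → Fin (2 * t)) → ℤ),
    (∀ u, |(c u : ℝ)| ≤ Real.exp (C * N / t ^ (2 * n))) ∧ x ∈ Ev R C C' N t i c}

lemma measure_Bad {n : ℕ} (hn : 1 ≤ n) {R C : ℝ} (hR : 0 ≤ R) (hC : 0 ≤ C) :
    ∃ C' : ℝ, 0 ≤ C' ∧ ∀ N : ℕ, volume (Bad n R C C' N) ≤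
      ENNReal.ofReal (Real.exp (-1) ^ N) := by
  obtain ⟨C', hC', h⟩ := single_event hn hR hC
    (C6 := 2 + n + 2 ^ (2 * n) * (C + 3) + n * (2 * (R + 1))) (by positivity)
  refine ⟨C', hC', fun N => ?_⟩
  set C6 := 2 + n + 2 ^ (2 * n) * (C + 3) + n * (2 * (R + 1)) with hC6
  let b : ℕ → ℕ := fun t => ⌊Real.exp (C * N / t ^ (2 * n))⌋₊
  let T := (Finset.Icc 1 N).filter fun t => t ^ (2 * n) ≤ N
  have hsub : Bad n R C C' N ⊆ ⋃ t ∈ T, ⋃ i ∈ (Finset.univ : Finset (Fin n)),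
      ⋃ c ∈ Fintype.piFinset fun _ : Ix n → Fin (2 * t) => Finset.Icc (-(b t : ℤ)) (b t),
        Ev R C C' N t i c := by
    rintro x ⟨t, ht, htN, i, c, hc, hx⟩
    simp only [mem_iUnion]
    refine ⟨t, Finset.mem_filter.2 ⟨Finset.mem_Icc.2
      ⟨ht, (Nat.le_self_pow (by omega) t).trans htN⟩, htN⟩, i, Finset.mem_univ _, c, ?_, hx⟩
    rw [Fintype.mem_piFinset]
    intro u
    rw [Finset.mem_Icc, ← abs_le, ← Int.natCast_natAbs]
    have h1 := hc u
    rw [← Int.cast_abs, ← Int.natCast_natAbs, Int.cast_natCast] at h1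
    have h2 : (c u).natAbs ≤ b t := Nat.le_floor h1
    exact_mod_cast h2
  refine (measure_mono hsub).trans ((measure_biUnion_finset_le _ _).trans ?_)
  have hterm : ∀ t ∈ T, volume (⋃ i ∈ (Finset.univ : Finset (Fin n)),
      ⋃ c ∈ Fintype.piFinset fun _ : Ix n → Fin (2 * t) => Finset.Icc (-(b t : ℤ)) (b t),
        Ev R C C' N t i c) ≤ ENNReal.ofReal (Real.exp (-(2 * N))) := by
    intro t htT
    obtain ⟨ht, htN⟩ := Finset.mem_filter.1 htT
    obtain ⟨ht1, ht2⟩ := Finset.mem_Icc.1 ht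
    have hN : (1 : ℝ) ≤ N := by exact_mod_cast ht1.trans ht2
    have hg1 : (1 : ℝ) ≤ (t : ℝ) ^ (2 * n) := one_le_pow₀ (by exact_mod_cast ht1)
    have hgN : (t : ℝ) ^ (2 * n) ≤ N := by exact_mod_cast htN
    have hb : (b t : ℝ) ≤ Real.exp (C * N / t ^ (2 * n)) := Nat.floor_le (Real.exp_pos _).le
    have hb' : (b t : ℝ) ≤ Real.exp (C * N) :=
      hb.trans (Real.exp_le_exp.2 (div_le_self (by positivity) hg1))
    have hcount : (((Fintype.piFinset fun _ : Ix n → Fin (2 * t) =>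
        Finset.Icc (-(b t : ℤ)) (b t)).card : ℕ) : ℝ) ≤ Real.exp (2 ^ (2 * n) * (C + 3) * N) := by
      have e : ((b t : ℤ) + 1 - -(b t : ℤ)).toNat = 2 * b t + 1 := by omega
      simp only [Fintype.card_piFinset, Int.card_Icc, e, Finset.prod_const, Finset.card_univ,
        Fintype.card_pi, Fintype.card_fin, Fintype.card_sum, ← two_mul]
      push_cast
      have h1 : 1 ≤ Real.exp (C * N / t ^ (2 * n)) := Real.one_le_exp (by positivity)
      have h2 : (2 * (b t : ℝ) + 1) ≤ Real.exp (3 + C * N / t ^ (2 * n)) := by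
        rw [Real.exp_add]
        have := le_exp_self 3
        nlinarith
      calc (2 * (b t : ℝ) + 1) ^ (2 * t) ^ (2 * n)
          ≤ Real.exp (3 + C * N / t ^ (2 * n)) ^ (2 * t) ^ (2 * n) := by gcongr
        _ ≤ _ := by
          rw [← Real.exp_nat_mul]
          refine Real.exp_le_exp.2 ?_
          push_cast
          rw [mul_pow, mul_assoc, mul_assoc]
          refine mul_le_mul_of_nonneg_left ?_ (by positivity)
          rw [mul_add, mul_div_cancel₀ _ (by positivity)]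
          linarith
    refine (measure_biUnion_finset_le _ _).trans ?_
    calc ∑ i : Fin n, volume (⋃ c ∈ Fintype.piFinset fun _ : Ix n → Fin (2 * t) =>
          Finset.Icc (-(b t : ℤ)) (b t), Ev R C C' N t i c)
        ≤ ∑ _i : Fin n, ∑ _c ∈ Fintype.piFinset fun _ : Ix n → Fin (2 * t) =>
          Finset.Icc (-(b t : ℤ)) (b t),
            ENNReal.ofReal (Real.exp (-(C6 * N)) * (2 * (R + 1)) ^ n) := by
          refine Finset.sum_le_sum fun i _ => (measure_biUnion_finset_le _ _).trans ?_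
          refine Finset.sum_le_sum fun c hc => h N t ht1 htN i c fun u => le_trans ?_ hb'
          have := abs_le.2 (Finset.mem_Icc.1 (Fintype.mem_piFinset.1 hc u))
          exact_mod_cast this
      _ ≤ _ := by
          rw [Finset.sum_const, Finset.sum_const, Finset.card_univ, Fintype.card_fin, nsmul_eq_mul,
            nsmul_eq_mul, ← ENNReal.ofReal_natCast, ← ENNReal.ofReal_natCast,
            ← ENNReal.ofReal_mul (by positivity), ← ENNReal.ofReal_mul (by positivity)]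
          refine ENNReal.ofReal_le_ofReal ?_
          have h1 : (n : ℝ) ≤ Real.exp (n * N) :=
            le_trans (le_mul_of_one_le_right (by positivity) hN) (le_exp_self _)
          have h2 : (2 * (R + 1)) ^ n ≤ Real.exp (n * (2 * (R + 1)) * N) := by
            calc (2 * (R + 1)) ^ n ≤ Real.exp (2 * (R + 1)) ^ n := by
                  gcongr; exact le_exp_self _
              _ = Real.exp (n * (2 * (R + 1))) := by rw [← Real.exp_nat_mul]
              _ ≤ _ := Real.exp_le_exp.2 (le_mul_of_one_le_right (by positivity) hN)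
          calc _ ≤ Real.exp (n * N) * (Real.exp (2 ^ (2 * n) * (C + 3) * N) *
                (Real.exp (-(C6 * N)) * Real.exp (n * (2 * (R + 1)) * N))) := by gcongr
            _ = _ := by simp only [← Real.exp_add]; congr 1; rw [hC6]; ring
  calc _ ≤ ∑ _t ∈ T, ENNReal.ofReal (Real.exp (-(2 * N))) := Finset.sum_le_sum hterm
    _ ≤ _ := by
      rw [Finset.sum_const, nsmul_eq_mul, ← ENNReal.ofReal_natCast,
        ← ENNReal.ofReal_mul (by positivity)]
      refine ENNReal.ofReal_le_ofReal ?_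
      have h1 : T.card ≤ N := (Finset.card_filter_le _ _).trans (by simp)
      have h2 : (T.card : ℝ) ≤ Real.exp N := le_trans (by exact_mod_cast h1) (le_exp_self _)
      calc _ ≤ Real.exp N * Real.exp (-(2 * N)) := by gcongr
        _ = _ := by rw [← Real.exp_add, ← Real.exp_nat_mul]; congr 1; ring

lemma ae_not_Bad {n : ℕ} (hn : 1 ≤ n) {C : ℝ} (hC : 0 ≤ C) :
    ∀ᵐ x : Fin n → ℝ, ∀ R : ℕ, ∃ C' : ℝ, 0 ≤ C' ∧ ∃ N₀ : ℕ, ∀ N, N₀ ≤ N → x ∉ Bad n R C C' N := by
  rw [ae_all_iff]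
  intro R
  obtain ⟨C', hC', h⟩ := measure_Bad hn (Nat.cast_nonneg R) hC
  have hsum : ∑' N, volume (Bad n R C C' N) ≠ ⊤ := by
    refine ne_top_of_le_ne_top ?_ (ENNReal.tsum_le_tsum h)
    have hs : Summable fun N : ℕ => Real.exp (-1) ^ N :=
      summable_geometric_of_lt_one (Real.exp_pos _).le (Real.exp_lt_one_iff.2 (by norm_num))
    rw [← ENNReal.ofReal_tsum_of_nonneg (fun N => by positivity) hs]
    exact ENNReal.ofReal_ne_top
  filter_upwards [ae_eventually_notMem hsum] with x hx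
  obtain ⟨N₀, hN₀⟩ := Filter.eventually_atTop.1 hx
  exact ⟨C', hC', N₀, hN₀⟩

end Pool.Agent.P.MP_92cab9_nt
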